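import Pool.Agent.ER.Dec
import Pool.Agent.ER.Rat

/-!
# The spectral norm of tensors with rational entries, and the class `∀ℝ`

`∃ℝ` (`InER`, `ERHard`, `ERComplete`) is defined in `Pool.Agent.ER.Defs`; polynomial time is
Mathlib's `Turing.TM2ComputableInPolyTime`.
-/

set_option autoImplicit false

namespace Pool.Agent.D0H56.SN

open Pool.Agent.NPC Pool.Agent.NPC.ER

/-- Finite arrays of rational numbers with three indices, as lists of lists of lists. -/
abbrev RTen : Type := List (List (List ℚ))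

/-- The array `T` is a tensor of the format `d × d × d`. -/
def IsTensor (d : ℕ) (T : RTen) : Prop :=
  T.length = d ∧ ∀ M ∈ T, M.length = d ∧ ∀ r ∈ M, r.length = d

/-- The entry `t_{ijk}` of the tensor `T`. -/
def entry (T : RTen) (i j k : ℕ) : ℚ := ((T.getD i []).getD j []).getD k 0

/-- The trilinear form `T(x, y, z) = ∑ t_{ijk} x_i y_j z_k`. -/
noncomputable def form (d : ℕ) (T : RTen) (x y z : Fin d → ℝ) : ℝ :=
  ∑ i : Fin d, ∑ j : Fin d, ∑ k : Fin d, (entry T i j k : ℝ) * x i * y j * z k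

/-- The values `|T(x, y, z)|` at triples of unit vectors. -/
def unitValues (d : ℕ) (T : RTen) : Set ℝ :=
  {r | ∃ x y z : Fin d → ℝ, ∑ i, x i ^ 2 = 1 ∧ ∑ i, y i ^ 2 = 1 ∧ ∑ i, z i ^ 2 = 1 ∧
    r = |form d T x y z|}

/-- The spectral norm of a tensor: the maximum of `|T(x, y, z)|` over all triples of unit
vectors (see `isGreatest_specNorm`). -/
noncomputable def specNorm (d : ℕ) (T : RTen) : ℝ := sSup (unitValues d T)

/-- SPECTRAL-NORM-BOUND: the input consists of `d ≥ 1`, a tensor `T` of the format `d × d × d`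
with rational entries and a rational number `σ > 0`; the question is whether the spectral norm of
`T` is at most `σ`. -/
def NormBound (I : ℕ × RTen × ℚ) : Prop :=
  1 ≤ I.1 ∧ IsTensor I.1 I.2.1 ∧ 0 < I.2.2 ∧ specNorm I.1 I.2.1 ≤ (I.2.2 : ℝ)

/-- SPECTRAL-NORM-EXCEED: the same input; the question is whether the spectral norm of `T` is
larger than `σ`. -/
def NormExceed (I : ℕ × RTen × ℚ) : Prop :=
  1 ≤ I.1 ∧ IsTensor I.1 I.2.1 ∧ 0 < I.2.2 ∧ (I.2.2 : ℝ) < specNorm I.1 I.2.1

/-- The class `∀ℝ`: the complements of the languages in `∃ℝ`. -/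
def InAR (L : Set (List Bool)) : Prop := InER Lᶜ

/-- `∀ℝ`-hardness under polynomial-time many-one reductions. -/
def ARHard (L : Set (List Bool)) : Prop := ∀ L', InAR L' → Reduces L' L

/-- `∀ℝ`-completeness under polynomial-time many-one reductions. -/
def ARComplete (L : Set (List Bool)) : Prop := InAR L ∧ ARHard L

/-! ### The supremum is a maximum -/

theorem continuous_form (d : ℕ) (T : RTen) :
    Continuous fun p : (Fin d → ℝ) × (Fin d → ℝ) × (Fin d → ℝ) => form d T p.1 p.2.1 p.2.2 := by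
  unfold form
  fun_prop

theorem isCompact_sphere' (d : ℕ) : IsCompact {x : Fin d → ℝ | ∑ i, x i ^ 2 = 1} := by
  refine Metric.isCompact_of_isClosed_isBounded ?_ ?_
  · exact isClosed_eq (by fun_prop) continuous_const
  · refine (Metric.isBounded_closedBall (x := (0 : Fin d → ℝ)) (r := 1)).subset fun x hx => ?_
    rw [Metric.mem_closedBall, dist_zero_right, pi_norm_le_iff_of_nonneg zero_le_one]
    intro i
    have h1 : x i ^ 2 ≤ 1 := by
      rw [← (show ∑ i, x i ^ 2 = 1 from hx)]
      exact Finset.single_le_sum (f := fun i => x i ^ 2) (fun j _ => sq_nonneg (x j))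
        (Finset.mem_univ i)
    rw [Real.norm_eq_abs, ← sq_le_one_iff_abs_le_one]
    exact h1

theorem unitValues_eq (d : ℕ) (T : RTen) : unitValues d T =
    (fun p : (Fin d → ℝ) × (Fin d → ℝ) × (Fin d → ℝ) => |form d T p.1 p.2.1 p.2.2|) ''
      ({x : Fin d → ℝ | ∑ i, x i ^ 2 = 1} ×ˢ
        ({x : Fin d → ℝ | ∑ i, x i ^ 2 = 1} ×ˢ {x : Fin d → ℝ | ∑ i, x i ^ 2 = 1})) := by
  ext r
  constructor
  · rintro ⟨x, y, z, hx, hy, hz, rfl⟩
    exact ⟨(x, y, z), ⟨hx, hy, hz⟩, rfl⟩
  · rintro ⟨⟨x, y, z⟩, ⟨hx, hy, hz⟩, rfl⟩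
    exact ⟨x, y, z, hx, hy, hz, rfl⟩

theorem isCompact_unitValues (d : ℕ) (T : RTen) : IsCompact (unitValues d T) := by
  rw [unitValues_eq]
  exact ((isCompact_sphere' d).prod ((isCompact_sphere' d).prod (isCompact_sphere' d))).image
    (continuous_form d T).abs

theorem unitValues_nonempty {d : ℕ} (hd : 1 ≤ d) (T : RTen) : (unitValues d T).Nonempty := by
  let e : Fin d → ℝ := Pi.single ⟨0, hd⟩ 1
  have he : ∑ i, e i ^ 2 = 1 := by
    rw [Finset.sum_eq_single (⟨0, hd⟩ : Fin d)]
    · simp [e]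
    · intro j _ hj
      simp [e, hj]
    · intro h
      exact absurd (Finset.mem_univ _) h
  exact ⟨_, e, e, e, he, he, he, rfl⟩

/-- The spectral norm is the maximum of `|T(x, y, z)|` over all triples of unit vectors. -/
theorem isGreatest_specNorm {d : ℕ} (hd : 1 ≤ d) (T : RTen) :
    IsGreatest (unitValues d T) (specNorm d T) :=
  ⟨(isCompact_unitValues d T).sSup_mem (unitValues_nonempty hd T),
    fun _ h => le_csSup (isCompact_unitValues d T).bddAbove h⟩

end Pool.Agent.D0H56.SN
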