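import Mathlib

/-!
# Families of symmetric matrices with a totally symmetric sum of squares

A symmetric matrix is given by a list of triples `(b, i, j)`, each of which stands for
`± (E_ij + E_ji)`. For a list `L` of signed quartic monomials a family `F` of such matrices is
constructed with `∑_M (xᵀ M y)² = ∑_M (xᵀ M x) (yᵀ M y)` for all `x`, `y`, and with
`∑_M (xᵀ M x)² = 36 (n + 1)² |x|⁴ + 24 G(x)`, where `G` is the sum of the monomials.
-/

set_option autoImplicit false

namespace Pool.Agent.D0H56.SN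

/-- Symmetric matrices, as sums of the matrices `± (E_ij + E_ji)`. -/
abbrev Sym : Type := List (Bool × ℕ × ℕ)

/-- The sign of a Boolean value. -/
def sgn (b : Bool) : ℝ := if b then -1 else 1

theorem sgn_mul_self (b : Bool) : sgn b * sgn b = 1 := by cases b <;> simp [sgn]

theorem sgn_sq (b : Bool) : sgn b ^ 2 = 1 := by cases b <;> simp [sgn]

/-- The bilinear form of a symmetric matrix. -/
def bil (M : Sym) (x y : ℕ → ℝ) : ℝ :=
  (M.map fun t => sgn t.1 * (x t.2.1 * y t.2.2 + x t.2.2 * y t.2.1)).sum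

@[simp] theorem bil_nil (x y : ℕ → ℝ) : bil [] x y = 0 := rfl

theorem bil_cons (t : Bool × ℕ × ℕ) (M : Sym) (x y : ℕ → ℝ) :
    bil (t :: M) x y = sgn t.1 * (x t.2.1 * y t.2.2 + x t.2.2 * y t.2.1) + bil M x y := by
  simp [bil]

/-- The sum of the squares of the bilinear forms of a family. -/
def E2 (F : List Sym) (x y : ℕ → ℝ) : ℝ := (F.map fun M => bil M x y ^ 2).sum

/-- The sum of the products of the values of the quadratic forms at two points. -/
def EX (F : List Sym) (x y : ℕ → ℝ) : ℝ := (F.map fun M => bil M x x * bil M y y).sum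

@[simp] theorem E2_nil (x y : ℕ → ℝ) : E2 [] x y = 0 := rfl
@[simp] theorem EX_nil (x y : ℕ → ℝ) : EX [] x y = 0 := rfl

@[simp] theorem E2_append (F F' : List Sym) (x y : ℕ → ℝ) :
    E2 (F ++ F') x y = E2 F x y + E2 F' x y := by simp [E2]
@[simp] theorem EX_append (F F' : List Sym) (x y : ℕ → ℝ) :
    EX (F ++ F') x y = EX F x y + EX F' x y := by simp [EX]
@[simp] theorem E2_cons (M : Sym) (F : List Sym) (x y : ℕ → ℝ) :
    E2 (M :: F) x y = bil M x y ^ 2 + E2 F x y := by simp [E2]
@[simp] theorem EX_cons (M : Sym) (F : List Sym) (x y : ℕ → ℝ) :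
    EX (M :: F) x y = bil M x x * bil M y y + EX F x y := by simp [EX]

theorem EX_self (F : List Sym) (x : ℕ → ℝ) : EX F x x = E2 F x x := by
  simp only [EX, E2, sq]

theorem E2_flatMap {α : Type} (l : List α) (f : α → List Sym) (x y : ℕ → ℝ) :
    E2 (l.flatMap f) x y = (l.map fun a => E2 (f a) x y).sum := by
  induction l with
  | nil => simp
  | cons a l ih => simp [ih]

theorem EX_flatMap {α : Type} (l : List α) (f : α → List Sym) (x y : ℕ → ℝ) :
    EX (l.flatMap f) x y = (l.map fun a => EX (f a) x y).sum := by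
  induction l with
  | nil => simp
  | cons a l ih => simp [ih]

theorem sum_map_range (n : ℕ) (f : ℕ → ℝ) :
    ((List.range n).map f).sum = ∑ i ∈ Finset.range n, f i := by
  induction n with
  | zero => simp
  | succ n ih => rw [List.range_succ, List.map_append, List.sum_append, ih, Finset.sum_range_succ]; simp

theorem sum_map_const {α : Type} (l : List α) (c : ℝ) : (l.map fun _ => c).sum = l.length * c := by
  induction l with
  | nil => simp
  | cons a l ih => simp; ring

/-! ### All pairs, all pairs but one, and the trace -/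

/-- The matrices `E_ij + E_ji` for all pairs `(i, j) ≠ p` (the pair `p` is replaced by the zero
matrix). -/
def compens (d : ℕ) (p : ℕ × ℕ) : List Sym :=
  (List.range d).flatMap fun i => (List.range d).map fun j =>
    if (i, j) = p then [] else [(false, i, j)]

/-- The matrices `E_ij + E_ji` for all pairs `(i, j)`. -/
def allp (d : ℕ) : List Sym :=
  (List.range d).flatMap fun i => (List.range d).map fun j => [(false, i, j)]

/-- Twice the identity matrix. -/
def tr (d : ℕ) : Sym := (List.range d).map fun i => (false, i, i)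

/-- `∑ x_i²`. -/
def N2 (d : ℕ) (x : ℕ → ℝ) : ℝ := ∑ i ∈ Finset.range d, x i ^ 2

/-- `∑ x_i y_i`. -/
def IP (d : ℕ) (x y : ℕ → ℝ) : ℝ := ∑ i ∈ Finset.range d, x i * y i

theorem E2_allp (d : ℕ) (x y : ℕ → ℝ) :
    E2 (allp d) x y = 2 * N2 d x * N2 d y + 2 * IP d x y ^ 2 := by
  have h : E2 (allp d) x y = ∑ i ∈ Finset.range d, ∑ j ∈ Finset.range d,
      (x i * y j + x j * y i) ^ 2 := by
    unfold allp
    rw [E2_flatMap, ← sum_map_range]
    congr 1
    refine List.map_congr_left fun i _ => ?_
    rw [E2, List.map_map, ← sum_map_range]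
    congr 1
    refine List.map_congr_left fun j _ => ?_
    simp [bil, sgn]
  have h2 : ∀ i j, (x i * y j + x j * y i) ^ 2 =
      x i ^ 2 * y j ^ 2 + y i ^ 2 * x j ^ 2 + 2 * ((x i * y i) * (x j * y j)) := fun i j => by ring
  rw [h]
  simp only [h2, Finset.sum_add_distrib, ← Finset.mul_sum, ← Finset.sum_mul]
  unfold N2 IP
  ring

theorem EX_allp (d : ℕ) (x y : ℕ → ℝ) : EX (allp d) x y = 4 * IP d x y ^ 2 := by
  have h : EX (allp d) x y = ∑ i ∈ Finset.range d, ∑ j ∈ Finset.range d,
      4 * ((x i * y i) * (x j * y j)) := by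
    unfold allp
    rw [EX_flatMap, ← sum_map_range]
    congr 1
    refine List.map_congr_left fun i _ => ?_
    rw [EX, List.map_map, ← sum_map_range]
    congr 1
    refine List.map_congr_left fun j _ => ?_
    simp [bil, sgn]
    ring
  rw [h]
  simp only [← Finset.mul_sum, ← Finset.sum_mul]
  unfold IP
  ring

theorem E2_compens (d : ℕ) (p : ℕ × ℕ) (h1 : p.1 < d) (h2 : p.2 < d) (x y : ℕ → ℝ) :
    E2 (compens d p) x y + (x p.1 * y p.2 + x p.2 * y p.1) ^ 2 =
      2 * N2 d x * N2 d y + 2 * IP d x y ^ 2 := by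
  rw [← E2_allp]
  have h : ∀ f : ℕ → ℕ → Sym, E2 ((List.range d).flatMap fun i => (List.range d).map (f i)) x y =
      ∑ i ∈ Finset.range d, ∑ j ∈ Finset.range d, bil (f i j) x y ^ 2 := by
    intro f
    rw [E2_flatMap, ← sum_map_range]
    congr 1
    refine List.map_congr_left fun i _ => ?_
    rw [E2, List.map_map, ← sum_map_range]
    rfl
  unfold compens allp
  rw [h, h]
  have h3 : (x p.1 * y p.2 + x p.2 * y p.1) ^ 2 = ∑ i ∈ Finset.range d, ∑ j ∈ Finset.range d,
      if (i, j) = p then (x i * y j + x j * y i) ^ 2 else 0 := by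
    obtain ⟨a, b⟩ := p
    simp only at h1 h2
    rw [Finset.sum_eq_single a, Finset.sum_eq_single b]
    · simp
    · intro j _ hj
      rw [if_neg]
      simpa using hj
    · intro hb
      exact absurd (Finset.mem_range.2 h2) hb
    · intro i _ hi
      refine Finset.sum_eq_zero fun j _ => ?_
      rw [if_neg]
      simp [hi]
    · intro ha
      exact absurd (Finset.mem_range.2 h1) ha
  rw [h3, ← Finset.sum_add_distrib]
  refine Finset.sum_congr rfl fun i _ => ?_
  rw [← Finset.sum_add_distrib]
  refine Finset.sum_congr rfl fun j _ => ?_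
  by_cases hp : (i, j) = p
  · rw [if_pos hp, if_pos hp]
    simp [bil, sgn]
  · rw [if_neg hp, if_neg hp]
    simp [bil, sgn]

theorem EX_compens (d : ℕ) (p : ℕ × ℕ) (h1 : p.1 < d) (h2 : p.2 < d) (x y : ℕ → ℝ) :
    EX (compens d p) x y + (2 * (x p.1 * x p.2)) * (2 * (y p.1 * y p.2)) =
      4 * IP d x y ^ 2 := by
  rw [← EX_allp]
  have h : ∀ f : ℕ → ℕ → Sym, EX ((List.range d).flatMap fun i => (List.range d).map (f i)) x y =
      ∑ i ∈ Finset.range d, ∑ j ∈ Finset.range d, bil (f i j) x x * bil (f i j) y y := by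
    intro f
    rw [EX_flatMap, ← sum_map_range]
    congr 1
    refine List.map_congr_left fun i _ => ?_
    rw [EX, List.map_map, ← sum_map_range]
    rfl
  unfold compens allp
  rw [h, h]
  have h3 : (2 * (x p.1 * x p.2)) * (2 * (y p.1 * y p.2)) =
      ∑ i ∈ Finset.range d, ∑ j ∈ Finset.range d,
      if (i, j) = p then (2 * (x i * x j)) * (2 * (y i * y j)) else 0 := by
    obtain ⟨a, b⟩ := p
    simp only at h1 h2
    rw [Finset.sum_eq_single a, Finset.sum_eq_single b]
    · simp
    · intro j _ hj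
      rw [if_neg]
      simpa using hj
    · intro hb
      exact absurd (Finset.mem_range.2 h2) hb
    · intro i _ hi
      refine Finset.sum_eq_zero fun j _ => ?_
      rw [if_neg]
      simp [hi]
    · intro ha
      exact absurd (Finset.mem_range.2 h1) ha
  rw [h3, ← Finset.sum_add_distrib]
  refine Finset.sum_congr rfl fun i _ => ?_
  rw [← Finset.sum_add_distrib]
  refine Finset.sum_congr rfl fun j _ => ?_
  by_cases hp : (i, j) = p
  · rw [if_pos hp, if_pos hp]
    simp [bil, sgn]
    ring
  · rw [if_neg hp, if_neg hp]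
    simp [bil, sgn]

theorem bil_tr (d : ℕ) (x y : ℕ → ℝ) : bil (tr d) x y = 2 * IP d x y := by
  unfold bil tr IP
  rw [List.map_map, Finset.mul_sum, ← sum_map_range]
  congr 1
  refine List.map_congr_left fun i _ => ?_
  simp [sgn]
  ring

theorem IP_self (d : ℕ) (x : ℕ → ℝ) : IP d x x = N2 d x := by
  unfold IP N2
  refine Finset.sum_congr rfl fun i _ => by ring

/-! ### Signed monomials of degree four -/

/-- Signed monomials `± x_i x_j x_k x_l`. -/
abbrev Mon : Type := Bool × (ℕ × ℕ) × (ℕ × ℕ)

/-- The value of a monomial. -/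
def mval (x : ℕ → ℝ) (t : Mon) : ℝ :=
  sgn t.1 * ((x t.2.1.1 * x t.2.1.2) * (x t.2.2.1 * x t.2.2.2))

/-- The value of the sum of the monomials of a list. -/
def G4 (L : List Mon) (x : ℕ → ℝ) : ℝ := (L.map (mval x)).sum

/-- The three matrices of a monomial. -/
def A3 (t : Mon) : List Sym :=
  [[(false, t.2.1.1, t.2.1.2), (t.1, t.2.2.1, t.2.2.2)],
   [(false, t.2.1.1, t.2.2.1), (t.1, t.2.1.2, t.2.2.2)],
   [(false, t.2.1.1, t.2.2.2), (t.1, t.2.1.2, t.2.2.1)]]

/-- The six pairs of the indices of a monomial. -/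
def six (t : Mon) : List (ℕ × ℕ) :=
  [(t.2.1.1, t.2.1.2), (t.2.2.1, t.2.2.2), (t.2.1.1, t.2.2.1), (t.2.1.2, t.2.2.2),
   (t.2.1.1, t.2.2.2), (t.2.1.2, t.2.2.1)]

/-- The block of a monomial. -/
def blk (d : ℕ) (t : Mon) : List Sym := A3 t ++ (six t).flatMap (compens d)

/-- All indices of a monomial are smaller than `d`. -/
def MLt (d : ℕ) (t : Mon) : Prop :=
  (t.2.1.1 < d ∧ t.2.1.2 < d) ∧ (t.2.2.1 < d ∧ t.2.2.2 < d)

theorem E2_blk {d : ℕ} {t : Mon} (h : MLt d t) (x y : ℕ → ℝ) :
    E2 (blk d t) x y = EX (blk d t) x y +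
      12 * (N2 d x * N2 d y - IP d x y ^ 2) := by
  obtain ⟨b, ⟨i, j⟩, k, l⟩ := t
  obtain ⟨⟨hi, hj⟩, hk, hl⟩ := h
  simp only at hi hj hk hl
  have e1 := E2_compens d (i, j) hi hj x y
  have e2 := E2_compens d (k, l) hk hl x y
  have e3 := E2_compens d (i, k) hi hk x y
  have e4 := E2_compens d (j, l) hj hl x y
  have e5 := E2_compens d (i, l) hi hl x y
  have e6 := E2_compens d (j, k) hj hk x y
  have f1 := EX_compens d (i, j) hi hj x y
  have f2 := EX_compens d (k, l) hk hl x y
  have f3 := EX_compens d (i, k) hi hk x y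
  have f4 := EX_compens d (j, l) hj hl x y
  have f5 := EX_compens d (i, l) hi hl x y
  have f6 := EX_compens d (j, k) hj hk x y
  simp only at e1 e2 e3 e4 e5 e6 f1 f2 f3 f4 f5 f6
  have hs := sgn_sq b
  unfold blk A3 six
  simp only [E2_append, EX_append, E2_flatMap, EX_flatMap, E2_cons, EX_cons, E2_nil, EX_nil,
    List.map_cons, List.map_nil, List.sum_cons, List.sum_nil, bil_cons, bil_nil]
  have s0 : sgn false = 1 := by simp [sgn]
  rw [s0]
  generalize E2 (compens d (i, j)) x y = c1 at *
  generalize E2 (compens d (k, l)) x y = c2 at *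
  generalize E2 (compens d (i, k)) x y = c3 at *
  generalize E2 (compens d (j, l)) x y = c4 at *
  generalize E2 (compens d (i, l)) x y = c5 at *
  generalize E2 (compens d (j, k)) x y = c6 at *
  generalize EX (compens d (i, j)) x y = g1 at *
  generalize EX (compens d (k, l)) x y = g2 at *
  generalize EX (compens d (i, k)) x y = g3 at *
  generalize EX (compens d (j, l)) x y = g4 at *
  generalize EX (compens d (i, l)) x y = g5 at *
  generalize EX (compens d (j, k)) x y = g6 at *
  generalize N2 d x = nx at *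
  generalize N2 d y = ny at *
  generalize IP d x y = q at *
  generalize sgn b = s at *
  obtain rfl : c1 = 2 * nx * ny + 2 * q ^ 2 - (x i * y j + x j * y i) ^ 2 := by linarith
  obtain rfl : c2 = 2 * nx * ny + 2 * q ^ 2 - (x k * y l + x l * y k) ^ 2 := by linarith
  obtain rfl : c3 = 2 * nx * ny + 2 * q ^ 2 - (x i * y k + x k * y i) ^ 2 := by linarith
  obtain rfl : c4 = 2 * nx * ny + 2 * q ^ 2 - (x j * y l + x l * y j) ^ 2 := by linarith
  obtain rfl : c5 = 2 * nx * ny + 2 * q ^ 2 - (x i * y l + x l * y i) ^ 2 := by linarith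
  obtain rfl : c6 = 2 * nx * ny + 2 * q ^ 2 - (x j * y k + x k * y j) ^ 2 := by linarith
  obtain rfl : g1 = 4 * q ^ 2 - (2 * (x i * x j)) * (2 * (y i * y j)) := by linarith
  obtain rfl : g2 = 4 * q ^ 2 - (2 * (x k * x l)) * (2 * (y k * y l)) := by linarith
  obtain rfl : g3 = 4 * q ^ 2 - (2 * (x i * x k)) * (2 * (y i * y k)) := by linarith
  obtain rfl : g4 = 4 * q ^ 2 - (2 * (x j * x l)) * (2 * (y j * y l)) := by linarith
  obtain rfl : g5 = 4 * q ^ 2 - (2 * (x i * x l)) * (2 * (y i * y l)) := by linarith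
  obtain rfl : g6 = 4 * q ^ 2 - (2 * (x j * x k)) * (2 * (y j * y k)) := by linarith
  linear_combination ((x k * y l + x l * y k) ^ 2 + (x j * y l + x l * y j) ^ 2 +
    (x j * y k + x k * y j) ^ 2 - (2 * (x k * x l)) * (2 * (y k * y l)) -
    (2 * (x j * x l)) * (2 * (y j * y l)) - (2 * (x j * x k)) * (2 * (y j * y k))) * hs

theorem E2_blk_self {d : ℕ} {t : Mon} (h : MLt d t) (x : ℕ → ℝ) :
    E2 (blk d t) x x = 24 * mval x t + 24 * N2 d x ^ 2 := by
  obtain ⟨b, ⟨i, j⟩, k, l⟩ := t
  obtain ⟨⟨hi, hj⟩, hk, hl⟩ := h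
  simp only at hi hj hk hl
  have e1 := E2_compens d (i, j) hi hj x x
  have e2 := E2_compens d (k, l) hk hl x x
  have e3 := E2_compens d (i, k) hi hk x x
  have e4 := E2_compens d (j, l) hj hl x x
  have e5 := E2_compens d (i, l) hi hl x x
  have e6 := E2_compens d (j, k) hj hk x x
  rw [IP_self] at e1 e2 e3 e4 e5 e6
  simp only at e1 e2 e3 e4 e5 e6
  have hs := sgn_sq b
  unfold blk A3 six mval
  simp only [E2_append, E2_flatMap, E2_cons, E2_nil,
    List.map_cons, List.map_nil, List.sum_cons, List.sum_nil, bil_cons, bil_nil]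
  have s0 : sgn false = 1 := by simp [sgn]
  rw [s0]
  generalize E2 (compens d (i, j)) x x = c1 at *
  generalize E2 (compens d (k, l)) x x = c2 at *
  generalize E2 (compens d (i, k)) x x = c3 at *
  generalize E2 (compens d (j, l)) x x = c4 at *
  generalize E2 (compens d (i, l)) x x = c5 at *
  generalize E2 (compens d (j, k)) x x = c6 at *
  generalize N2 d x = nx at *
  generalize sgn b = s at *
  linear_combination e1 + e2 + e3 + e4 + e5 + e6 + ((x k * x l + x l * x k) ^ 2 +
    (x j * x l + x l * x j) ^ 2 + (x j * x k + x k * x j) ^ 2) * hs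

/-! ### The family -/

/-- The family of a list of signed monomials. -/
def fam (d : ℕ) (L : List Mon) : List Sym :=
  L.flatMap (blk d) ++
    ((List.range (L.length * L.length + L.length + 1)).flatMap fun _ =>
      (List.range 6).flatMap fun _ => allp d) ++
    (List.range (L.length * L.length + L.length + 1 + L.length)).flatMap fun _ =>
      [tr d, tr d, tr d]

theorem E2_fam {d : ℕ} {L : List Mon} (h : ∀ t ∈ L, MLt d t) (x y : ℕ → ℝ) :
    E2 (fam d L) x y = EX (fam d L) x y := by
  have h1 : E2 (L.flatMap (blk d)) x y = EX (L.flatMap (blk d)) x y +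
      L.length * (12 * (N2 d x * N2 d y - IP d x y ^ 2)) := by
    rw [E2_flatMap, EX_flatMap]
    induction L with
    | nil => simp
    | cons t L ih =>
      have := ih fun t ht => h t (List.mem_cons_of_mem _ ht)
      simp only [List.map_cons, List.sum_cons, List.length_cons, this, E2_blk (h t (by simp))]
      push_cast
      ring
  unfold fam
  simp only [E2_append, EX_append, E2_flatMap, EX_flatMap, sum_map_const, E2_cons, EX_cons,
    E2_nil, EX_nil, bil_tr, IP_self, E2_allp, EX_allp, List.length_range] at h1 ⊢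
  rw [h1]
  push_cast
  ring

theorem E2_fam_self {d : ℕ} {L : List Mon} (h : ∀ t ∈ L, MLt d t) (x : ℕ → ℝ) :
    E2 (fam d L) x x = 36 * (L.length + 1) ^ 2 * N2 d x ^ 2 + 24 * G4 L x := by
  have h1 : E2 (L.flatMap (blk d)) x x = 24 * G4 L x + L.length * (24 * N2 d x ^ 2) := by
    rw [E2_flatMap]
    unfold G4
    induction L with
    | nil => simp
    | cons t L ih =>
      have := ih fun t ht => h t (List.mem_cons_of_mem _ ht)
      simp only [List.map_cons, List.sum_cons, List.length_cons, this, E2_blk_self (h t (by simp))]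
      push_cast
      ring
  unfold fam
  simp only [E2_append, E2_flatMap, sum_map_const, E2_cons,
    E2_nil, bil_tr, IP_self, E2_allp, List.length_range] at h1 ⊢
  rw [h1]
  push_cast
  ring

/-- All indices of a matrix are smaller than `d`. -/
def SLt (d : ℕ) (M : Sym) : Prop := ∀ t ∈ M, t.2.1 < d ∧ t.2.2 < d

theorem fam_lt {d : ℕ} {L : List Mon} (h : ∀ t ∈ L, MLt d t) : ∀ M ∈ fam d L, SLt d M := by
  have hall : ∀ M ∈ allp d, SLt d M := by
    intro M hM
    unfold allp at hM
    simp only [List.mem_flatMap, List.mem_map, List.mem_range] at hM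
    obtain ⟨i, hi, j, hj, rfl⟩ := hM
    intro t ht
    simp only [List.mem_singleton] at ht
    subst ht
    exact ⟨hi, hj⟩
  have hco : ∀ p, ∀ M ∈ compens d p, SLt d M := by
    intro p M hM
    unfold compens at hM
    simp only [List.mem_flatMap, List.mem_map, List.mem_range] at hM
    obtain ⟨i, hi, j, hj, rfl⟩ := hM
    intro t ht
    split_ifs at ht with hp
    · simp at ht
    · simp only [List.mem_singleton] at ht
      subst ht
      exact ⟨hi, hj⟩
  have htr : SLt d (tr d) := by
    intro t ht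
    unfold tr at ht
    simp only [List.mem_map, List.mem_range] at ht
    obtain ⟨i, hi, rfl⟩ := ht
    exact ⟨hi, hi⟩
  intro M hM
  unfold fam at hM
  simp only [List.mem_append, List.mem_flatMap, List.mem_range] at hM
  rcases hM with (⟨t, ht, hM⟩ | ⟨_, _, _, _, hM⟩) | ⟨_, _, hM⟩
  · obtain ⟨⟨hi, hj⟩, hk, hl⟩ := h t ht
    unfold blk at hM
    rw [List.mem_append] at hM
    rcases hM with hM | hM
    · unfold A3 at hM
      simp only [List.mem_cons, List.not_mem_nil, or_false] at hM
      rcases hM with rfl | rfl | rfl <;>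
      · intro t' ht'
        simp only [List.mem_cons, List.not_mem_nil, or_false] at ht'
        rcases ht' with rfl | rfl <;> constructor <;> assumption
    · rw [List.mem_flatMap] at hM
      obtain ⟨p, _, hM⟩ := hM
      exact hco p M hM
  · exact hall M hM
  · simp only [List.mem_cons, List.not_mem_nil, or_false, or_self] at hM
    rw [hM]
    exact htr

end Pool.Agent.D0H56.SN
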