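import Pool.Agent.D0H56.SN.PolyT
import Pool.Agent.ER.Rat

/-!
# Membership in `∃ℝ` and in `∀ℝ`
-/

set_option autoImplicit false

namespace Pool.Agent.NPC.D0H56SN

open Pool.Agent.NPC Pool.Agent.NPC.ER Pool.Agent.D0H56.SN
open Pool.Agent.NPC.H670R2 (conj holds_conj poly_conj poly_tvar poly_tmul poly_eq poly_lt poly_and
  tt holds_tt ff not_etr_ff)

/-! ### The formula -/

/-- `q < t`. -/
def gtRat (t : Tm) (q : ℚ) : Fm := Fm.lt (intTm q.num) (Tm.mul (natTm q.den) t)

theorem holds_gtRat (x : ℕ → ℝ) (t : Tm) (q : ℚ) : (gtRat t q).Holds x ↔ (q : ℝ) < t.eval x := by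
  unfold gtRat
  simp only [Fm.Holds, Tm.eval, eval_natTm, eval_intTm]
  have h1 : (0 : ℝ) < q.den := by exact_mod_cast q.den_pos
  have h2 : (q : ℝ) = q.num / q.den := by exact_mod_cast (Rat.num_div_den q).symm
  rw [h2, div_lt_iff₀ h1, mul_comm]

/-- The variable of an entry. -/
def vu (n i j k : ℕ) : ℕ := 4 * ((i * n + j) * n + k) + 3

/-- The equations for the entries. -/
def entF (T : RTen) : List Fm :=
  (List.range T.length).flatMap fun i => (List.range T.length).flatMap fun j =>
    (List.range T.length).map fun k => eqRat (Tm.var (vu T.length i j k)) (entry T i j k)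

/-- The equation of the unit sphere. -/
def unitF (n o : ℕ) : Fm :=
  Fm.eq (sumTm ((List.range n).map fun i => Tm.mul (Tm.var (4 * i + o)) (Tm.var (4 * i + o))))
    Tm.one

/-- The trilinear form. -/
def formT (n : ℕ) : Tm :=
  sumTm ((List.range n).map fun i => sumTm ((List.range n).map fun j =>
    sumTm ((List.range n).map fun k => Tm.mul (Tm.var (vu n i j k))
      (Tm.mul (Tm.var (4 * i + 0)) (Tm.mul (Tm.var (4 * j + 1)) (Tm.var (4 * k + 2)))))))

/-- The formula of an instance. -/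
def fN (I : ℕ × RTen × ℚ) : Fm :=
  Fm.and (conj (entF I.2.1)) (Fm.and (unitF I.2.1.length 0) (Fm.and (unitF I.2.1.length 1)
    (Fm.and (unitF I.2.1.length 2) (gtRat (formT I.2.1.length) I.2.2))))

theorem eval_sum_range (v : ℕ → ℝ) (n : ℕ) (f : ℕ → Tm) :
    (sumTm ((List.range n).map f)).eval v = ∑ i ∈ Finset.range n, (f i).eval v := by
  rw [eval_sumTm, List.map_map, ← sum_map_range]
  rfl

theorem holds_unitF (v : ℕ → ℝ) (n o : ℕ) :
    (unitF n o).Holds v ↔ ∑ i ∈ Finset.range n, v (4 * i + o) ^ 2 = 1 := by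
  unfold unitF
  simp only [Fm.Holds, eval_sum_range, Tm.eval, sq]

theorem eval_formT (v : ℕ → ℝ) (n : ℕ) : (formT n).eval v =
    ∑ i ∈ Finset.range n, ∑ j ∈ Finset.range n, ∑ k ∈ Finset.range n,
      v (vu n i j k) * (v (4 * i + 0) * (v (4 * j + 1) * v (4 * k + 2))) := by
  unfold formT
  simp only [eval_sum_range, Tm.eval]

theorem holds_entF (v : ℕ → ℝ) (T : RTen) : (conj (entF T)).Holds v ↔
    ∀ i < T.length, ∀ j < T.length, ∀ k < T.length,
      v (vu T.length i j k) = (entry T i j k : ℚ) := by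
  rw [holds_conj]
  unfold entF
  simp only [List.forall_mem_flatMap, List.forall_mem_map, List.mem_range, holds_eqRat, Tm.eval]

theorem holds_fN {v : ℕ → ℝ} {n : ℕ} {T : RTen} (hT : T.length = n) {σ : ℚ} :
    (fN (n, T, σ)).Holds v ↔
      (∀ i < n, ∀ j < n, ∀ k < n, v (vu n i j k) = (entry T i j k : ℚ)) ∧
      (∑ i ∈ Finset.range n, v (4 * i + 0) ^ 2 = 1) ∧
      (∑ i ∈ Finset.range n, v (4 * i + 1) ^ 2 = 1) ∧
      (∑ i ∈ Finset.range n, v (4 * i + 2) ^ 2 = 1) ∧
      ((σ : ℝ) < ∑ i ∈ Finset.range n, ∑ j ∈ Finset.range n, ∑ k ∈ Finset.range n,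
        v (vu n i j k) * (v (4 * i + 0) * (v (4 * j + 1) * v (4 * k + 2)))) := by
  subst hT
  unfold fN
  simp only [Fm.Holds, holds_entF, holds_unitF, holds_gtRat, eval_formT]

theorem etr_fN {n : ℕ} (hn : 1 ≤ n) {T : RTen} (hT : T.length = n) (σ : ℚ) :
    ETR (fN (n, T, σ)) ↔ (σ : ℝ) < specNorm n T := by
  unfold ETR
  simp only [holds_fN hT]
  constructor
  · rintro ⟨v, h1, h2, h3, h4, h5⟩
    let x : Fin n → ℝ := fun i => v (4 * i + 0)
    let y : Fin n → ℝ := fun i => v (4 * i + 1)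
    let z : Fin n → ℝ := fun i => v (4 * i + 2)
    have hx : ∑ i, x i ^ 2 = 1 := by
      rw [← h2, Finset.sum_range]
    have hy : ∑ i, y i ^ 2 = 1 := by
      rw [← h3, Finset.sum_range]
    have hz : ∑ i, z i ^ 2 = 1 := by
      rw [← h4, Finset.sum_range]
    have hf : form n T x y z = ∑ i ∈ Finset.range n, ∑ j ∈ Finset.range n, ∑ k ∈ Finset.range n,
        v (vu n i j k) * (v (4 * i + 0) * (v (4 * j + 1) * v (4 * k + 2))) := by
      unfold form
      rw [Finset.sum_range]
      refine Finset.sum_congr rfl fun i _ => ?_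
      rw [Finset.sum_range]
      refine Finset.sum_congr rfl fun j _ => ?_
      rw [Finset.sum_range]
      refine Finset.sum_congr rfl fun k _ => ?_
      rw [h1 i i.2 j j.2 k k.2]
      simp only [x, y, z]
      ring
    rw [← hf] at h5
    have h6 := (isGreatest_specNorm hn T).2 ⟨x, y, z, hx, hy, hz, rfl⟩
    exact lt_of_lt_of_le (lt_of_lt_of_le h5 (le_abs_self _)) h6
  · intro h
    obtain ⟨x, y, z, hx, hy, hz, hr⟩ := (isGreatest_specNorm hn T).1
    rw [hr] at h
    obtain ⟨x', hx', hr'⟩ : ∃ x' : Fin n → ℝ, ∑ i, x' i ^ 2 = 1 ∧ (σ : ℝ) < form n T x' y z := by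
      rcases le_total 0 (form n T x y z) with h0 | h0
      · exact ⟨x, hx, by rwa [abs_of_nonneg h0] at h⟩
      · refine ⟨fun i => - x i, by simpa using hx, ?_⟩
        have : form n T (fun i => - x i) y z = - form n T x y z := by
          unfold form
          simp only [mul_neg, neg_mul, Finset.sum_neg_distrib]
        rw [this]
        rwa [abs_of_nonpos h0] at h
    let v : ℕ → ℝ := fun m =>
      if m % 4 = 0 then ext x' (m / 4) else if m % 4 = 1 then ext y (m / 4)
      else if m % 4 = 2 then ext z (m / 4)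
      else (entry T (m / 4 / n / n) (m / 4 / n % n) (m / 4 % n) : ℚ)
    have v0 : ∀ i, v (4 * i + 0) = ext x' i := by
      intro i
      have e1 : (4 * i + 0) % 4 = 0 := by omega
      have e2 : (4 * i + 0) / 4 = i := by omega
      simp only [v, e1, e2, if_true]
    have v1 : ∀ i, v (4 * i + 1) = ext y i := by
      intro i
      have e1 : (4 * i + 1) % 4 = 1 := by omega
      have e2 : (4 * i + 1) / 4 = i := by omega
      simp only [v, e1, e2, if_true, one_ne_zero, if_false]
    have v2 : ∀ i, v (4 * i + 2) = ext z i := by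
      intro i
      have e1 : (4 * i + 2) % 4 = 2 := by omega
      have e2 : (4 * i + 2) / 4 = i := by omega
      have e3 : (2 : ℕ) ≠ 0 := by norm_num
      have e4 : (2 : ℕ) ≠ 1 := by norm_num
      simp only [v, e1, e2, if_true, e3, e4, if_false]
    have v3 : ∀ i < n, ∀ j < n, ∀ k < n, v (vu n i j k) = (entry T i j k : ℚ) := by
      intro i hi j hj k hk
      have e1 : vu n i j k % 4 = 3 := by unfold vu; omega
      have e2 : vu n i j k / 4 = (i * n + j) * n + k := by unfold vu; omega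
      have e3 : (3 : ℕ) ≠ 0 := by norm_num
      have e4 : (3 : ℕ) ≠ 1 := by norm_num
      have e5 : (3 : ℕ) ≠ 2 := by norm_num
      have hn0 : 0 < n := hn
      have e6 : ((i * n + j) * n + k) / n = i * n + j := by
        rw [mul_comm, Nat.mul_add_div hn0, Nat.div_eq_of_lt hk, add_zero]
      have e7 : ((i * n + j) * n + k) % n = k := by
        rw [mul_comm, Nat.mul_add_mod, Nat.mod_eq_of_lt hk]
      have e8 : (i * n + j) / n = i := by
        rw [mul_comm, Nat.mul_add_div hn0, Nat.div_eq_of_lt hj, add_zero]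
      have e9 : (i * n + j) % n = j := by
        rw [mul_comm, Nat.mul_add_mod, Nat.mod_eq_of_lt hj]
      simp only [v, e1, e2, e3, e4, e5, if_false, e6, e7, e8, e9]
    refine ⟨v, v3, ?_, ?_, ?_, ?_⟩
    · simp only [v0]
      rw [← hx', ← N2_ext]
      rfl
    · simp only [v1]
      rw [← hy, ← N2_ext]
      rfl
    · simp only [v2]
      rw [← hz, ← N2_ext]
      rfl
    · refine lt_of_lt_of_eq hr' ?_
      unfold form
      rw [Finset.sum_range]
      refine Finset.sum_congr rfl fun i _ => ?_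
      rw [Finset.sum_range]
      refine Finset.sum_congr rfl fun j _ => ?_
      rw [Finset.sum_range]
      refine Finset.sum_congr rfl fun k _ => ?_
      rw [v3 i i.2 j j.2 k k.2, v0, v1, v2, ext_val, ext_val, ext_val]
      ring

/-! ### Validity of an instance -/

/-- The test for valid instances. -/
def okN (I : ℕ × RTen × ℚ) : Bool :=
  (decide (1 ≤ I.1) && decide (I.2.1.length = I.1)) &&
    ((I.2.1.all fun M => decide (M.length = I.1) && M.all fun r => decide (r.length = I.1)) &&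
      (!(decide (I.2.2.num < 0)) && !(decide (I.2.2.num.natAbs = 0))))

theorem okN_iff (I : ℕ × RTen × ℚ) :
    okN I = true ↔ 1 ≤ I.1 ∧ IsTensor I.1 I.2.1 ∧ 0 < I.2.2 := by
  obtain ⟨d, T, q⟩ := I
  have hq : 0 < q ↔ ¬ q.num < 0 ∧ ¬ q.num.natAbs = 0 := by
    rw [← Rat.num_pos]
    omega
  unfold okN IsTensor
  simp only [Bool.and_eq_true, decide_eq_true_eq, List.all_eq_true, Bool.not_eq_true',
    decide_eq_false_iff_not, hq]
  tauto

theorem exceed_iff (I : ℕ × RTen × ℚ) :
    NormExceed I ↔ ETR (bif okN I then fN I else ff) := by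
  obtain ⟨d, T, σ⟩ := I
  by_cases h : okN (d, T, σ) = true
  · rw [h, cond_true]
    have h1 := (okN_iff _).1 h
    simp only at h1
    rw [etr_fN h1.1 h1.2.1.1]
    unfold NormExceed
    simp only
    tauto
  · have h' : okN (d, T, σ) = false := by simpa using h
    rw [h', cond_false]
    constructor
    · rintro ⟨h1, h2, h3, _⟩
      exact absurd ((okN_iff _).2 ⟨h1, h2, h3⟩) h
    · intro h2
      exact absurd h2 not_etr_ff

theorem not_bound_iff (I : ℕ × RTen × ℚ) :
    ¬ NormBound I ↔ ETR (bif okN I then fN I else tt) := by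
  obtain ⟨d, T, σ⟩ := I
  by_cases h : okN (d, T, σ) = true
  · rw [h, cond_true]
    have h1 := (okN_iff _).1 h
    simp only at h1
    rw [etr_fN h1.1 h1.2.1.1, ← not_le]
    unfold NormBound
    simp only
    tauto
  · have h' : okN (d, T, σ) = false := by simpa using h
    rw [h', cond_false]
    constructor
    · intro _
      exact ⟨fun _ => 0, holds_tt _⟩
    · rintro _ ⟨h1, h2, h3, _⟩
      exact absurd ((okN_iff _).2 ⟨h1, h2, h3⟩) h

/-! ### Polynomial time -/

section

variable {α : Type} [TEnc α]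

theorem poly_gtRat {t : α → Tm} {q : α → ℚ} (ht : Poly t) (hq : Poly q) :
    Poly (fun a => gtRat (t a) (q a)) :=
  poly_lt (poly_intTm (poly_ratNum hq)) (poly_tmul (poly_natTm (poly_ratDen hq)) ht)

theorem poly_vu {n i j k : α → ℕ} (hn : Poly n) (hi : Poly i) (hj : Poly j) (hk : Poly k) :
    Poly (fun a => vu (n a) (i a) (j a) (k a)) :=
  Poly.add (Poly.mul (Poly.const 4) (Poly.add (Poly.mul (Poly.add (Poly.mul hi hn) hj) hn) hk))
    (Poly.const 3)

theorem poly_lin {i : α → ℕ} (o : ℕ) (hi : Poly i) : Poly (fun a => Tm.var (4 * i a + o)) :=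
  poly_tvar (Poly.add (Poly.mul (Poly.const 4) hi) (Poly.const o))

theorem poly_entry {T : α → RTen} {i j k : α → ℕ} (hT : Poly T) (hi : Poly i) (hj : Poly j)
    (hk : Poly k) : Poly (fun a => entry (T a) (i a) (j a) (k a)) :=
  Poly.getD (Poly.getD (Poly.getD hT hi (Poly.const [])) hj (Poly.const [])) hk
    (Poly.const (0 : ℚ))

theorem poly_entF {T : α → RTen} (hT : Poly T) : Poly (fun a => entF (T a)) := by
  have hn := UPoly.length hT
  refine Poly.flatMap (F := fun a i => (List.range (T a).length).flatMap fun j =>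
    (List.range (T a).length).map fun k => eqRat (Tm.var (vu (T a).length i j k))
      (entry (T a) i j k)) hn.range ?_
  refine Poly.flatMap (F := fun (p : α × ℕ) j => (List.range (T p.1).length).map fun k =>
    eqRat (Tm.var (vu (T p.1).length p.2 j k)) (entry (T p.1) p.2 j k))
      (hn.range.comp (Poly.fst Poly.id)) ?_
  refine Poly.map (F := fun (q : (α × ℕ) × ℕ) k =>
    eqRat (Tm.var (vu (T q.1.1).length q.1.2 q.2 k)) (entry (T q.1.1) q.1.2 q.2 k))
      (hn.range.comp (Poly.fst (Poly.fst Poly.id))) ?_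
  have p1 : Poly (fun r : ((α × ℕ) × ℕ) × ℕ => r.1.1.1) := Poly.fst (Poly.fst (Poly.fst Poly.id))
  have p2 : Poly (fun r : ((α × ℕ) × ℕ) × ℕ => r.1.1.2) := Poly.snd (Poly.fst (Poly.fst Poly.id))
  have p3 : Poly (fun r : ((α × ℕ) × ℕ) × ℕ => r.1.2) := Poly.snd (Poly.fst Poly.id)
  have p4 : Poly (fun r : ((α × ℕ) × ℕ) × ℕ => r.2) := Poly.snd Poly.id
  exact poly_eqRat (poly_tvar (poly_vu (hn.toPoly.comp p1) p2 p3 p4))
    (poly_entry (hT.comp p1) p2 p3 p4)

theorem poly_unitF {n : α → ℕ} (hn : UPoly n) (o : ℕ) : Poly (fun a => unitF (n a) o) := by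
  refine poly_eq (poly_sumTm (Poly.map (F := fun _ i => Tm.mul (Tm.var (4 * i + o))
    (Tm.var (4 * i + o))) hn.range ?_)) (Poly.const _)
  have h : Poly (fun p : α × ℕ => p.2) := Poly.snd Poly.id
  exact poly_tmul (poly_lin o h) (poly_lin o h)

theorem poly_formT {n : α → ℕ} (hn : UPoly n) : Poly (fun a => formT (n a)) := by
  refine poly_sumTm (Poly.map (F := fun a i => sumTm ((List.range (n a)).map fun j =>
    sumTm ((List.range (n a)).map fun k => Tm.mul (Tm.var (vu (n a) i j k))
      (Tm.mul (Tm.var (4 * i + 0)) (Tm.mul (Tm.var (4 * j + 1)) (Tm.var (4 * k + 2))))))) hn.range ?_)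
  refine poly_sumTm (Poly.map (F := fun (p : α × ℕ) j =>
    sumTm ((List.range (n p.1)).map fun k => Tm.mul (Tm.var (vu (n p.1) p.2 j k))
      (Tm.mul (Tm.var (4 * p.2 + 0)) (Tm.mul (Tm.var (4 * j + 1)) (Tm.var (4 * k + 2))))))
      (hn.range.comp (Poly.fst Poly.id)) ?_)
  refine poly_sumTm (Poly.map (F := fun (q : (α × ℕ) × ℕ) k =>
    Tm.mul (Tm.var (vu (n q.1.1) q.1.2 q.2 k))
      (Tm.mul (Tm.var (4 * q.1.2 + 0)) (Tm.mul (Tm.var (4 * q.2 + 1)) (Tm.var (4 * k + 2)))))
      (hn.range.comp (Poly.fst (Poly.fst Poly.id))) ?_)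
  have p1 : Poly (fun r : ((α × ℕ) × ℕ) × ℕ => r.1.1.1) := Poly.fst (Poly.fst (Poly.fst Poly.id))
  have p2 : Poly (fun r : ((α × ℕ) × ℕ) × ℕ => r.1.1.2) := Poly.snd (Poly.fst (Poly.fst Poly.id))
  have p3 : Poly (fun r : ((α × ℕ) × ℕ) × ℕ => r.1.2) := Poly.snd (Poly.fst Poly.id)
  have p4 : Poly (fun r : ((α × ℕ) × ℕ) × ℕ => r.2) := Poly.snd Poly.id
  exact poly_tmul (poly_tvar (poly_vu (hn.toPoly.comp p1) p2 p3 p4))
    (poly_tmul (poly_lin 0 p2) (poly_tmul (poly_lin 1 p3) (poly_lin 2 p4)))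

end

theorem poly_fN : Poly fN := by
  have hT : Poly (fun I : ℕ × RTen × ℚ => I.2.1) := Poly.fst (Poly.snd Poly.id)
  have hq : Poly (fun I : ℕ × RTen × ℚ => I.2.2) := Poly.snd (Poly.snd Poly.id)
  have hn := UPoly.length hT
  exact poly_and (poly_conj (poly_entF hT)) (poly_and (poly_unitF hn 0) (poly_and (poly_unitF hn 1)
    (poly_and (poly_unitF hn 2) (poly_gtRat (poly_formT hn) hq))))

theorem poly_okN : Poly okN := by
  have hd : Poly (fun I : ℕ × RTen × ℚ => I.1) := Poly.fst Poly.id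
  have hT : Poly (fun I : ℕ × RTen × ℚ => I.2.1) := Poly.fst (Poly.snd Poly.id)
  have hq : Poly (fun I : ℕ × RTen × ℚ => I.2.2) := Poly.snd (Poly.snd Poly.id)
  have hz := poly_ratNum hq
  refine Poly.and (Poly.and (Poly.decide_le (Poly.const 1) hd)
    (Poly.decide_eq (Poly.length hT) hd)) (Poly.and
      (Poly.all (p := fun (I : ℕ × RTen × ℚ) (M : List (List ℚ)) => decide (M.length = I.1) &&
        M.all fun r => decide (r.length = I.1)) hT ?_)
      (Poly.and (Poly.not (poly_isNeg hz))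
        (Poly.not (Poly.decide_eq (poly_natAbs hz) (Poly.const 0)))))
  have p1 : Poly (fun p : (ℕ × RTen × ℚ) × List (List ℚ) => p.1.1) := Poly.fst (Poly.fst Poly.id)
  have p2 : Poly (fun p : (ℕ × RTen × ℚ) × List (List ℚ) => p.2) := Poly.snd Poly.id
  refine Poly.and (Poly.decide_eq (Poly.length p2) p1)
    (Poly.all (p := fun (p : (ℕ × RTen × ℚ) × List (List ℚ)) (r : List ℚ) =>
      decide (r.length = p.1.1)) p2 ?_)
  exact Poly.decide_eq (Poly.length (Poly.snd Poly.id)) (p1.comp (Poly.fst Poly.id))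

theorem mem_exceed : InER (lang NormExceed) :=
  ER.InER.of_poly (Poly.cond poly_okN poly_fN (Poly.const _)) exceed_iff

/-- A criterion for membership in `∀ℝ`. -/
theorem inAR_of_poly {α : Type} [TEnc α] [TDec α] {P : α → Prop} {φ : α → Fm} (h : Poly φ)
    (hP : ∀ a, ¬ P a ↔ ETR (φ a)) : InAR (lang P) := by
  refine ⟨fun w => match unbits α w with | none => tt | some a => φ a, ?_, fun w => ?_⟩
  · refine polyTime_bits (g := fun w => match unbits α w with | none => tt | some a => φ a) ?_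
    exact Poly.optCases (g := fun _ => tt) (h := fun _ a => φ a) poly_unbits (Poly.const _)
      (h.comp (Poly.snd Poly.id))
  · rw [Set.mem_compl_iff, mem_lang_iff]
    cases hx : unbits α w with
    | none =>
      simp only [hx]
      simp only [reduceCtorEq, false_and, exists_false, not_false_eq_true, true_iff]
      exact ⟨fun _ => 0, holds_tt _⟩
    | some a =>
      simp only [hx]
      rw [← hP a]
      simp

theorem mem_bound : InAR (lang NormBound) :=
  inAR_of_poly (Poly.cond poly_okN poly_fN (Poly.const _)) not_bound_iff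

/-! ### Hardness for `∀ℝ` -/

theorem red_correct' (S : List ER.Con) : ¬ Sat S ↔ NormBound (red S) := by
  rw [← specNorm_red]
  have h1 : 1 ≤ DS S := le_trans (dim_pos S) (Nat.le_add_right _ _)
  have h3 := isTensor_ten (DS S) (famS S)
  unfold red NormBound
  simp only
  generalize ten (DS S) (famS S) = T at *
  generalize DS S = D at *
  generalize (mons S).length = n
  have h2 : (0 : ℚ) < ((6 * (n + 1) : ℕ) : ℚ) := by
    rw [Nat.cast_pos]
    omega
  have h4 : ((((6 * (n + 1) : ℕ) : ℚ)) : ℝ) = 6 * ((n : ℝ) + 1) := by push_cast; ring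
  rw [h4, not_lt]
  exact ⟨fun h => ⟨h1, h3, h2, h⟩, fun h => h.2.2.2⟩

theorem hard_bound : ARHard (lang NormBound) := by
  rintro L' ⟨g, hg, hL⟩
  have h1 : PC (id : List Bool → List Bool) (bits : Fm → List Bool) g :=
    H642R2.TMSim.polyTime_toPC hg
  have h2 : Poly (fun φ : Fm => red (sysOf φ)) := Poly.comp poly_red (poly_sysOf Poly.id)
  have h3 : PC (id : List Bool → List Bool) (bits : (ℕ × RTen × ℚ) → List Bool)
      (fun x => red (sysOf (g x))) :=
    PC.comp (g := fun φ : Fm => red (sysOf φ)) (eb := (bits : Fm → List Bool)) h2 h1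
  have h4 : PC (id : List Bool → List Bool) (id : List Bool → List Bool)
    (fun x => bits (red (sysOf (g x)))) := h3
  refine ⟨fun x => bits (red (sysOf (g x))), PC.toPolyTime h4, fun x => ?_⟩
  have h5 := hL x
  rw [Set.mem_compl_iff, ← sat_sysOf] at h5
  have h6 : x ∈ L' ↔ ¬ Sat (sysOf (g x)) := by
    rw [← h5, not_not]
  rw [h6, red_correct']
  constructor
  · intro hP
    exact ⟨_, rfl, hP⟩
  · rintro ⟨a, ha, hP⟩
    rwa [bits_injective ha] at hP

end Pool.Agent.NPC.D0H56SN
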