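import Pool.Agent.D0H56.SN.Quartic
import Pool.Agent.H612.CollectPoly
import Pool.Agent.ER.Dec
import Pool.Agent.ER.Build
import Pool.Agent.ER.Hard

/-!
# The reduction is computable in polynomial time
-/

set_option autoImplicit false

namespace Pool.Agent.NPC.D0H56SN

open Pool.Agent.NPC Pool.Agent.NPC.ER Pool.Agent.D0H56.SN

/-- The family of a system. -/
def famS (S : List ER.Con) : List Sym := fam (dim S) (mons S)

/-- The format of the tensor of a system. -/
def DS (S : List ER.Con) : ℕ := dim S + (famS S).length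

/-- The instance of a system. -/
def red (S : List ER.Con) : ℕ × RTen × ℚ :=
  (DS S, ten (DS S) (famS S), ((6 * ((mons S).length + 1) : ℕ) : ℚ))

theorem specNorm_red (S : List ER.Con) :
    (6 * (((mons S).length : ℝ) + 1) < specNorm (DS S) (ten (DS S) (famS S))) ↔ Sat S := by
  rw [sat_iff]
  exact specNorm_ten (D := DS S) (mons_lt S) (dim_pos S) (Nat.le_add_right _ _)
    (Nat.le_add_left _ _)

theorem red_correct (S : List ER.Con) : Sat S ↔ NormExceed (red S) := by
  rw [← specNorm_red]
  have h1 : 1 ≤ DS S := le_trans (dim_pos S) (Nat.le_add_right _ _)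
  have h3 := isTensor_ten (DS S) (famS S)
  unfold red NormExceed
  simp only
  generalize ten (DS S) (famS S) = T at *
  generalize DS S = D at *
  generalize (mons S).length = n
  have h2 : (0 : ℚ) < ((6 * (n + 1) : ℕ) : ℚ) := by
    rw [Nat.cast_pos]
    omega
  have h4 : ((((6 * (n + 1) : ℕ) : ℚ)) : ℝ) = 6 * ((n : ℝ) + 1) := by push_cast; ring
  rw [h4]
  exact ⟨fun h => ⟨h1, h3, h2, h⟩, fun h => h.2.2.2⟩

section

variable {α β : Type} [TEnc α] [TEnc β]

theorem poly_replicateC {b : α → β} (n : ℕ) (hb : Poly b) :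
    Poly (fun a => List.replicate n (b a)) := by
  induction n with
  | zero => exact Poly.const _
  | succ n ih => exact (Poly.cons hb ih).congr fun a => by rw [List.replicate_succ]

theorem poly_con_vars' {f : α → ER.Con} (hf : Poly f) : Poly (fun a => (f a).vars) := by
  have h0 : Poly (fun a => (f a).code) := poly_con_code hf
  have h1 : Poly (fun a => (f a).code.1) := Poly.fst h0
  have hi : Poly (fun a => (f a).code.2.1) := Poly.fst (Poly.snd h0)
  have hj : Poly (fun a => (f a).code.2.2.1) := Poly.fst (Poly.snd (Poly.snd h0))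
  have hk : Poly (fun a => (f a).code.2.2.2) := Poly.snd (Poly.snd (Poly.snd h0))
  refine (Poly.ite (Poly.decide_eq h1 (Poly.const 0)) (Poly.cons hi (Poly.const []))
    (Poly.cons hi (Poly.cons hj (Poly.cons hk (Poly.const []))))).congr fun a => ?_
  cases f a <;> simp [ER.Con.code, ER.Con.vars]

theorem poly_svars' {S : α → List ER.Con} (hS : Poly S) : Poly (fun a => svars (S a)) :=
  Poly.flatMap (F := fun _ c => ER.Con.vars c) hS (poly_con_vars' (Poly.snd Poly.id))

theorem poly_wi {V : α → List ℕ} {i : α → ℕ} (hV : Poly V) (hi : Poly i) :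
    Poly (fun a => wi (V a) (i a)) :=
  Poly.add (Poly.mul (Poly.const 2) (H612.poly_idxOf hV hi)) (Poly.const 1)

theorem poly_si {V : α → List ℕ} {i : α → ℕ} (hV : Poly V) (hi : Poly i) :
    Poly (fun a => si (V a) (i a)) :=
  Poly.add (Poly.mul (Poly.const 2) (H612.poly_idxOf hV hi)) (Poly.const 2)

theorem poly_trip {i j : α → ℕ} (b : Bool) (hi : Poly i) (hj : Poly j) :
    Poly (fun a => ((b, i a, j a) : Bool × ℕ × ℕ)) :=
  Poly.pair (Poly.const b) (Poly.pair hi hj)

theorem conQ_eq (V : List ℕ) (c : ER.Con) : conQ V c =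
    if c.code.1 = 0 then List.replicate 8 (false, wi V c.code.2.1, 0) ++ [(true, 0, 0)]
    else if c.code.1 = 1 then [(false, wi V c.code.2.1, 0), (false, wi V c.code.2.2.1, 0),
      (true, wi V c.code.2.2.2, 0)]
    else [(false, wi V c.code.2.1, wi V c.code.2.2.1), (true, wi V c.code.2.2.2, 0)] := by
  cases c <;> rfl

theorem poly_conQ {V : α → List ℕ} {c : α → ER.Con} (hV : Poly V) (hc : Poly c) :
    Poly (fun a => conQ (V a) (c a)) := by
  have h0 : Poly (fun a => (c a).code) := poly_con_code hc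
  have h1 : Poly (fun a => (c a).code.1) := Poly.fst h0
  have hi : Poly (fun a => wi (V a) (c a).code.2.1) := poly_wi hV (Poly.fst (Poly.snd h0))
  have hj : Poly (fun a => wi (V a) (c a).code.2.2.1) :=
    poly_wi hV (Poly.fst (Poly.snd (Poly.snd h0)))
  have hk : Poly (fun a => wi (V a) (c a).code.2.2.2) :=
    poly_wi hV (Poly.snd (Poly.snd (Poly.snd h0)))
  have z : Poly (fun _ : α => (0 : ℕ)) := Poly.const 0
  refine (Poly.ite (Poly.decide_eq h1 (Poly.const 0))
    (Poly.append (poly_replicateC 8 (poly_trip false hi z))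
      (Poly.cons (poly_trip true z z) (Poly.const [])))
    (Poly.ite (Poly.decide_eq h1 (Poly.const 1))
      (Poly.cons (poly_trip false hi z) (Poly.cons (poly_trip false hj z)
        (Poly.cons (poly_trip true hk z) (Poly.const []))))
      (Poly.cons (poly_trip false hi hj) (Poly.cons (poly_trip true hk z)
        (Poly.const []))))).congr fun a => ?_
  exact (conQ_eq _ _).symm

theorem poly_boxQ {V : α → List ℕ} {i : α → ℕ} (hV : Poly V) (hi : Poly i) :
    Poly (fun a => boxQ (V a) (i a)) := by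
  have z : Poly (fun _ : α => (0 : ℕ)) := Poly.const 0
  exact Poly.append (poly_replicateC 64 (poly_trip false (poly_wi hV hi) (poly_wi hV hi)))
    (Poly.cons (poly_trip false (poly_si hV hi) (poly_si hV hi))
      (Poly.cons (poly_trip true z z) (Poly.const [])))

theorem upoly_KK : UPoly KK :=
  UPoly.add (UPoly.mul (UPoly.const 11) (UPoly.length (poly_bsys Poly.id))) (UPoly.const 7)

theorem poly_chain : Poly (fun S : List ER.Con => chain (KK S)) := by
  refine Poly.map (F := fun _ j => ER.Con.mul (ER.ev j) (ER.ev j) (ER.ev (j + 1)))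
    upoly_KK.range ?_
  have h : Poly (fun p : List ER.Con × ℕ => p.2) := Poly.snd Poly.id
  exact poly_con_mul (poly_ev h) (poly_ev h) (poly_ev (Poly.succ h))

theorem poly_sysC : Poly sysC := Poly.append (poly_bsys Poly.id) poly_chain

theorem poly_vC : Poly vC := poly_svars' poly_sysC

theorem poly_quads : Poly quads := by
  refine Poly.append (Poly.map (F := fun S c => conQ (vC S) c) poly_sysC ?_)
    (Poly.map (F := fun S i => boxQ (vC S) i) poly_vC ?_)
  · exact poly_conQ (poly_vC.comp (Poly.fst Poly.id)) (Poly.snd Poly.id)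
  · exact poly_boxQ (poly_vC.comp (Poly.fst Poly.id)) (Poly.snd Poly.id)

theorem poly_negsq : Poly negsq := by
  refine Poly.flatMap (F := fun (Q : Quad) a => Q.map fun b => (!(a.1 ^^ b.1), a.2, b.2))
    Poly.id ?_
  refine Poly.map (F := fun (p : Quad × (Bool × ℕ × ℕ)) b => (!(p.2.1 ^^ b.1), p.2.2, b.2))
    (Poly.fst Poly.id) ?_
  have p1 : Poly (fun q : (Quad × (Bool × ℕ × ℕ)) × (Bool × ℕ × ℕ) => q.1.2) :=
    Poly.snd (Poly.fst Poly.id)
  have p2 : Poly (fun q : (Quad × (Bool × ℕ × ℕ)) × (Bool × ℕ × ℕ) => q.2) := Poly.snd Poly.id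
  exact Poly.pair (Poly.not (Poly.xor (Poly.fst p1) (Poly.fst p2)))
    (Poly.pair (Poly.snd p1) (Poly.snd p2))

theorem poly_yv : Poly yv := poly_wi poly_vC (poly_ev upoly_KK.toPoly)

theorem poly_mons : Poly mons := by
  have hy := poly_yv
  have hyy := Poly.pair hy hy
  exact Poly.cons (Poly.pair (Poly.const false) (Poly.pair hyy hyy))
    (Poly.flatMap (F := fun _ Q => negsq Q) poly_quads (poly_negsq.comp (Poly.snd Poly.id)))

theorem upoly_dim : UPoly dim :=
  UPoly.add (UPoly.mul (UPoly.const 2) (UPoly.length poly_vC)) (UPoly.const 1)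

/-! ### The family -/

theorem poly_single {M : α → Bool × ℕ × ℕ} (hM : Poly M) : Poly (fun a => ([M a] : Sym)) :=
  Poly.cons hM (Poly.const [])

theorem poly_allp {d : α → ℕ} (hd : UPoly d) : Poly (fun a => allp (d a)) := by
  refine Poly.flatMap (F := fun a i => (List.range (d a)).map fun j => ([(false, i, j)] : Sym))
    hd.range ?_
  refine Poly.map (F := fun (p : α × ℕ) j => ([(false, p.2, j)] : Sym))
    (hd.range.comp (Poly.fst Poly.id)) ?_
  exact poly_single (Poly.pair (Poly.const false) (Poly.pair (Poly.snd (Poly.fst Poly.id))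
    (Poly.snd Poly.id)))

theorem poly_compens {d : α → ℕ} {p : α → ℕ × ℕ} (hd : UPoly d) (hp : Poly p) :
    Poly (fun a => compens (d a) (p a)) := by
  refine Poly.flatMap (F := fun a i => (List.range (d a)).map fun j =>
    if (i, j) = p a then ([] : Sym) else [(false, i, j)]) hd.range ?_
  refine Poly.map (F := fun (q : α × ℕ) j =>
    if (q.2, j) = p q.1 then ([] : Sym) else [(false, q.2, j)])
    (hd.range.comp (Poly.fst Poly.id)) ?_
  have h1 : Poly (fun r : (α × ℕ) × ℕ => (r.1.2, r.2)) :=
    Poly.pair (Poly.snd (Poly.fst Poly.id)) (Poly.snd Poly.id)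
  have h2 : Poly (fun r : (α × ℕ) × ℕ => p r.1.1) := hp.comp (Poly.fst (Poly.fst Poly.id))
  exact Poly.ite (Poly.decide_eq h1 h2) (Poly.const [])
    (poly_single (Poly.pair (Poly.const false) h1))

theorem poly_tr {d : α → ℕ} (hd : UPoly d) : Poly (fun a => tr (d a)) := by
  refine Poly.map (F := fun _ i => (false, i, i)) hd.range ?_
  exact Poly.pair (Poly.const false) (Poly.pair (Poly.snd Poly.id) (Poly.snd Poly.id))

theorem poly_A3 {t : α → Mon} (ht : Poly t) : Poly (fun a => A3 (t a)) := by
  have hb := Poly.fst ht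
  have hi := Poly.fst (Poly.fst (Poly.snd ht))
  have hj := Poly.snd (Poly.fst (Poly.snd ht))
  have hk := Poly.fst (Poly.snd (Poly.snd ht))
  have hl := Poly.snd (Poly.snd (Poly.snd ht))
  have key : ∀ {i j k l : α → ℕ}, Poly i → Poly j → Poly k → Poly l →
      Poly (fun a => ([(false, i a, j a), ((t a).1, k a, l a)] : Sym)) := by
    intro i j k l hi hj hk hl
    exact Poly.cons (Poly.pair (Poly.const false) (Poly.pair hi hj))
      (Poly.cons (Poly.pair hb (Poly.pair hk hl)) (Poly.const []))
  exact Poly.cons (key hi hj hk hl) (Poly.cons (key hi hk hj hl)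
    (Poly.cons (key hi hl hj hk) (Poly.const [])))

theorem poly_six {t : α → Mon} (ht : Poly t) : Poly (fun a => six (t a)) := by
  have hi := Poly.fst (Poly.fst (Poly.snd ht))
  have hj := Poly.snd (Poly.fst (Poly.snd ht))
  have hk := Poly.fst (Poly.snd (Poly.snd ht))
  have hl := Poly.snd (Poly.snd (Poly.snd ht))
  exact Poly.cons (Poly.pair hi hj) (Poly.cons (Poly.pair hk hl) (Poly.cons (Poly.pair hi hk)
    (Poly.cons (Poly.pair hj hl) (Poly.cons (Poly.pair hi hl) (Poly.cons (Poly.pair hj hk)
      (Poly.const []))))))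

theorem poly_blk {d : α → ℕ} {t : α → Mon} (hd : UPoly d) (ht : Poly t) :
    Poly (fun a => blk (d a) (t a)) := by
  refine Poly.append (poly_A3 ht) (Poly.flatMap (F := fun a p => compens (d a) p)
    (poly_six ht) ?_)
  exact poly_compens (hd.comp (Poly.fst Poly.id)) (Poly.snd Poly.id)

theorem poly_fam {d : α → ℕ} {L : α → List Mon} (hd : UPoly d) (hL : Poly L) :
    Poly (fun a => fam (d a) (L a)) := by
  have hn := UPoly.length hL
  have hn2 : UPoly (fun a => (L a).length * (L a).length + (L a).length + 1) :=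
    UPoly.add (UPoly.add (UPoly.mul hn hn) hn) (UPoly.const 1)
  have hn3 := UPoly.add hn2 hn
  refine Poly.append (Poly.append (Poly.flatMap (F := fun a t => blk (d a) t) hL ?_)
    (Poly.flatMap (F := fun a _ => (List.range 6).flatMap fun _ => allp (d a)) hn2.range ?_))
    (Poly.flatMap (F := fun a _ => ([tr (d a), tr (d a), tr (d a)] : List Sym)) hn3.range ?_)
  · exact poly_blk (hd.comp (Poly.fst Poly.id)) (Poly.snd Poly.id)
  · refine Poly.flatMap (F := fun (p : α × ℕ) _ => allp (d p.1)) (Poly.const _) ?_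
    exact poly_allp (hd.comp (Poly.fst (Poly.fst Poly.id)))
  · have h0 : Poly (fun p : α × ℕ => p.1) := Poly.fst Poly.id
    have h := poly_tr (hd.comp h0)
    exact Poly.cons h (Poly.cons h (Poly.cons h (Poly.const [])))

theorem poly_famS : Poly famS := poly_fam upoly_dim poly_mons

theorem upoly_DS : UPoly DS := UPoly.add upoly_dim (UPoly.length poly_famS)

/-! ### The tensor -/

theorem poly_intToRat' {z : α → ℤ} (hz : Poly z) : Poly (fun a => ((z a : ℤ) : ℚ)) := by
  have h : Poly (fun a => (z a, (1 : ℕ))) := Poly.pair hz (Poly.const 1)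
  have h2 : Poly (fun a => (((z a : ℤ) : ℚ).num, ((z a : ℤ) : ℚ).den)) := h.congr fun a => by simp
  exact h2

theorem poly_natRat' {n : α → ℕ} (hn : Poly n) : Poly (fun a => ((n a : ℕ) : ℚ)) := by
  have h0 : Poly (fun a => ((n a : ℕ) : ℤ)) :=
    (H612.poly_int_sub hn (Poly.const 0)).congr fun a => by simp
  exact (poly_intToRat' h0).congr fun a => Int.cast_natCast (n a)

theorem poly_countS {l : α → Sym} {b : α → Bool × ℕ × ℕ} (hl : Poly l) (hb : Poly b) :
    Poly (fun a => (l a).count (b a)) := by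
  refine (Poly.length (Poly.filter (p := fun a x => decide (x = b a)) hl
    (Poly.decide_eq (Poly.snd Poly.id) (hb.comp (Poly.fst Poly.id))))).congr fun a => ?_
  rw [List.count_eq_length_filter]
  congr 2
  funext x
  rw [Bool.eq_iff_iff]
  simp

theorem poly_ent {M : α → Sym} {i j : α → ℕ} (hM : Poly M) (hi : Poly i) (hj : Poly j) :
    Poly (fun a => ent (M a) (i a) (j a)) := by
  have key : ∀ (b : Bool) {k l : α → ℕ}, Poly k → Poly l →
      Poly (fun a => (M a).count (b, k a, l a)) := fun b k l hk hl =>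
    poly_countS hM (Poly.pair (Poly.const b) (Poly.pair hk hl))
  exact poly_intToRat' (H612.poly_int_sub
    (Poly.add (key false hi hj) (key false hj hi)) (Poly.add (key true hi hj) (key true hj hi)))

theorem poly_ten {D : α → ℕ} {F : α → List Sym} (hD : UPoly D) (hF : Poly F) :
    Poly (fun a => ten (D a) (F a)) := by
  refine Poly.map (F := fun a b => (List.range (D a)).map fun i => (List.range (D a)).map fun j =>
    ent ((F a).getD b []) i j) hD.range ?_
  refine Poly.map (F := fun (p : α × ℕ) i => (List.range (D p.1)).map fun j =>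
    ent ((F p.1).getD p.2 []) i j) (hD.range.comp (Poly.fst Poly.id)) ?_
  refine Poly.map (F := fun (q : (α × ℕ) × ℕ) j => ent ((F q.1.1).getD q.1.2 []) q.2 j)
    (hD.range.comp (Poly.fst (Poly.fst Poly.id))) ?_
  have p1 : Poly (fun r : ((α × ℕ) × ℕ) × ℕ => r.1.1.1) := Poly.fst (Poly.fst (Poly.fst Poly.id))
  have p2 : Poly (fun r : ((α × ℕ) × ℕ) × ℕ => r.1.1.2) := Poly.snd (Poly.fst (Poly.fst Poly.id))
  have p3 : Poly (fun r : ((α × ℕ) × ℕ) × ℕ => r.1.2) := Poly.snd (Poly.fst Poly.id)
  have p4 : Poly (fun r : ((α × ℕ) × ℕ) × ℕ => r.2) := Poly.snd Poly.id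
  exact poly_ent (Poly.getD (hF.comp p1) p2 (Poly.const [])) p3 p4

end

theorem poly_red : Poly red :=
  Poly.pair upoly_DS.toPoly (Poly.pair (poly_ten upoly_DS poly_famS)
    (poly_natRat' (Poly.mul (Poly.const 6) (Poly.succ (Poly.length poly_mons)))))

/-- Hardness. -/
theorem hard_exceed : ERHard (lang NormExceed) := ERHard.of_sys poly_red red_correct

end Pool.Agent.NPC.D0H56SN
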