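import Pool.Agent.D0H56.SN.Defs
import Pool.Agent.D0H56.SN.Fam

/-!
# The spectral norm of the tensor of a family of symmetric matrices
-/

set_option autoImplicit false

namespace Pool.Agent.D0H56.SN

/-- The entries of a symmetric matrix. -/
def ent (M : Sym) (i j : ℕ) : ℚ :=
  ((((M.count (false, i, j) + M.count (false, j, i) : ℕ) : ℤ) -
    ((M.count (true, i, j) + M.count (true, j, i) : ℕ) : ℤ) : ℤ) : ℚ)

/-- The tensor of a family of matrices (filled up with zeros). -/
def ten (D : ℕ) (F : List Sym) : RTen :=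
  (List.range D).map fun a => (List.range D).map fun i => (List.range D).map fun j =>
    ent (F.getD a []) i j

theorem isTensor_ten (D : ℕ) (F : List Sym) : IsTensor D (ten D F) := by
  refine ⟨by simp [ten], fun M hM => ?_⟩
  unfold ten at hM
  rw [List.mem_map] at hM
  obtain ⟨a, _, rfl⟩ := hM
  refine ⟨by simp, fun r hr => ?_⟩
  rw [List.mem_map] at hr
  obtain ⟨i, _, rfl⟩ := hr
  simp

theorem getD_map_range {β : Type} (f : ℕ → β) (e : β) {D a : ℕ} (h : a < D) :
    ((List.range D).map f).getD a e = f a := by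
  rw [List.getD_eq_getElem _ _ (by simpa using h)]
  simp

theorem entry_ten (F : List Sym) {D a i j : ℕ} (ha : a < D) (hi : i < D) (hj : j < D) :
    entry (ten D F) a i j = ent (F.getD a []) i j := by
  unfold entry ten
  rw [getD_map_range _ _ ha, getD_map_range _ _ hi, getD_map_range _ _ hj]

theorem ent_cons (t : Bool × ℕ × ℕ) (M : Sym) (i j : ℕ) : ((ent (t :: M) i j : ℚ) : ℝ) =
    sgn t.1 * ((if t.2 = (i, j) then 1 else 0) + (if t.2 = (j, i) then 1 else 0)) +
      (ent M i j : ℚ) := by
  unfold ent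
  obtain ⟨b, p⟩ := t
  simp only [List.count_cons]
  push_cast
  have h1 : ∀ (c : Bool) (q : ℕ × ℕ), ((b, p) == (c, q)) = (decide (b = c) && decide (p = q)) := by
    intro c q
    rw [beq_eq_decide]
    simp [Prod.mk.injEq]
  have h2 : ∀ q : ℕ × ℕ, (if p = q then (1 : ℝ) else 0) = if decide (p = q) = true then 1 else 0 := by
    intro q
    simp
  simp only [h1, h2]
  generalize decide (p = (i, j)) = c1
  generalize decide (p = (j, i)) = c2
  cases b <;> cases c1 <;> cases c2 <;> simp [sgn] <;> ring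

theorem ent_sum {D : ℕ} (y z : ℕ → ℝ) : ∀ {M : Sym}, SLt D M →
    ∑ i ∈ Finset.range D, ∑ j ∈ Finset.range D, ((ent M i j : ℚ) : ℝ) * y i * z j = bil M y z
  | [], _ => by simp [ent]
  | t :: M, h => by
    have ih := ent_sum y z (M := M) fun s hs => h s (List.mem_cons_of_mem _ hs)
    obtain ⟨hp, hq⟩ := h t (by simp)
    rw [bil_cons, ← ih]
    simp only [ent_cons]
    obtain ⟨b, p, q⟩ := t
    simp only at hp hq ⊢
    have e : ∀ i j, (sgn b * ((if (p, q) = (i, j) then 1 else 0) +
        (if (p, q) = (j, i) then 1 else 0)) + ((ent M i j : ℚ) : ℝ)) * y i * z j =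
        (if p = i then (if q = j then sgn b * (y i * z j) else 0) else 0) +
        (if q = i then (if p = j then sgn b * (y i * z j) else 0) else 0) +
        ((ent M i j : ℚ) : ℝ) * y i * z j := by
      intro i j
      simp only [Prod.mk.injEq]
      split_ifs <;> first | ring1 | (exfalso; tauto)
    simp only [e, Finset.sum_add_distrib]
    congr 1
    have e3 : ∀ (a b' : ℕ) (ha : a < D) (hb : b' < D),
        ∑ i ∈ Finset.range D, ∑ j ∈ Finset.range D,
          (if a = i then (if b' = j then sgn b * (y i * z j) else 0) else 0) =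
          sgn b * (y a * z b') := by
      intro a b' ha hb
      rw [Finset.sum_eq_single a, Finset.sum_eq_single b']
      · simp
      · intro j _ hj
        simp [Ne.symm hj]
      · intro h'
        exact absurd (Finset.mem_range.2 hb) h'
      · intro i _ hi
        simp [Ne.symm hi]
      · intro h'
        exact absurd (Finset.mem_range.2 ha) h'
    rw [e3 p q hp hq, e3 q p hq hp]
    ring

/-- Extension of a vector by zero. -/
noncomputable def ext {D : ℕ} (x : Fin D → ℝ) (i : ℕ) : ℝ := if h : i < D then x ⟨i, h⟩ else 0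

theorem ext_val {D : ℕ} (x : Fin D → ℝ) (i : Fin D) : ext x i = x i := by
  simp [ext]

theorem N2_ext {D : ℕ} (x : Fin D → ℝ) : N2 D (ext x) = ∑ i, x i ^ 2 := by
  unfold N2
  rw [Finset.sum_range]
  simp only [ext_val]

theorem N2_mono {d D : ℕ} (h : d ≤ D) (x : ℕ → ℝ) : N2 d x ≤ N2 D x := by
  unfold N2
  refine Finset.sum_le_sum_of_subset_of_nonneg ?_ fun i _ _ => sq_nonneg _
  intro i hi
  rw [Finset.mem_range] at hi ⊢
  omega

theorem N2_nonneg (d : ℕ) (x : ℕ → ℝ) : 0 ≤ N2 d x := Finset.sum_nonneg fun _ _ => sq_nonneg _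

theorem slt_getD {D : ℕ} {F : List Sym} (h : ∀ M ∈ F, SLt D M) (a : ℕ) : SLt D (F.getD a []) := by
  by_cases ha : a < F.length
  · rw [List.getD_eq_getElem _ _ ha]
    exact h _ (List.getElem_mem _)
  · rw [List.getD_eq_default _ _ (by omega)]
    intro t ht
    simp at ht

theorem form_ten {D : ℕ} {F : List Sym} (h : ∀ M ∈ F, SLt D M) (x y z : Fin D → ℝ) :
    form D (ten D F) x y z =
      ∑ a ∈ Finset.range D, ext x a * bil (F.getD a []) (ext y) (ext z) := by
  unfold form
  rw [Finset.sum_range]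
  refine Finset.sum_congr rfl fun a _ => ?_
  rw [← ent_sum (D := D) _ _ (slt_getD h a), Finset.sum_range, Finset.mul_sum]
  refine Finset.sum_congr rfl fun i _ => ?_
  rw [Finset.sum_range, Finset.mul_sum]
  refine Finset.sum_congr rfl fun j _ => ?_
  rw [entry_ten F a.2 i.2 j.2]
  simp only [ext_val]
  ring

theorem sum_getD {D : ℕ} {F : List Sym} (hF : F.length ≤ D) (f : Sym → ℝ) (h0 : f [] = 0) :
    ∑ a ∈ Finset.range D, f (F.getD a []) = (F.map f).sum := by
  have h1 : ∑ a ∈ Finset.range D, f (F.getD a []) =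
      ∑ a ∈ Finset.range F.length, f (F.getD a []) := by
    symm
    refine Finset.sum_subset (fun x hx => ?_) fun x _ hx => ?_
    · rw [Finset.mem_range] at hx ⊢
      omega
    · rw [Finset.mem_range] at hx
      rw [List.getD_eq_default _ _ (by omega), h0]
  rw [h1]
  clear h1 hF
  induction F with
  | nil => simp
  | cons M F ih =>
    rw [List.length_cons, Finset.sum_range_succ']
    simp only [List.getD_cons_succ, List.getD_cons_zero, List.map_cons, List.sum_cons]
    rw [ih]
    ring

theorem EX_sq_le (F : List Sym) (x y : ℕ → ℝ) : EX F x y ^ 2 ≤ E2 F x x * E2 F y y := by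
  have h := Finset.sum_mul_sq_le_sq_mul_sq (Finset.range F.length)
    (fun a => bil (F.getD a []) x x) (fun a => bil (F.getD a []) y y)
  rw [sum_getD le_rfl (fun M => bil M x x * bil M y y) (by simp),
    sum_getD le_rfl (fun M => bil M x x ^ 2) (by simp),
    sum_getD le_rfl (fun M => bil M y y ^ 2) (by simp)] at h
  exact h

theorem E2_nonneg (F : List Sym) (x y : ℕ → ℝ) : 0 ≤ E2 F x y := by
  unfold E2
  refine List.sum_nonneg fun r hr => ?_
  rw [List.mem_map] at hr
  obtain ⟨M, _, rfl⟩ := hr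
  exact sq_nonneg _

theorem form_sq_le {D : ℕ} {F : List Sym} (h : ∀ M ∈ F, SLt D M) (hF : F.length ≤ D)
    (x y z : Fin D → ℝ) (hx : ∑ i, x i ^ 2 = 1) :
    form D (ten D F) x y z ^ 2 ≤ E2 F (ext y) (ext z) := by
  rw [form_ten h]
  have h1 := Finset.sum_mul_sq_le_sq_mul_sq (Finset.range D)
    (fun a => ext x a) (fun a => bil (F.getD a []) (ext y) (ext z))
  rw [sum_getD hF (fun M => bil M (ext y) (ext z) ^ 2) (by simp)] at h1
  have h2 : ∑ i ∈ Finset.range D, ext x i ^ 2 = 1 := by
    rw [← hx, ← N2_ext]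
    rfl
  rw [h2, one_mul] at h1
  exact h1

theorem sgn_cases (b : Bool) : sgn b = 1 ∨ sgn b = -1 := by cases b <;> simp [sgn]

theorem G4_scale (L : List Mon) (x : ℕ → ℝ) (c : ℝ) :
    G4 L (fun i => c * x i) = c ^ 4 * G4 L x := by
  unfold G4
  rw [← List.sum_map_mul_left]
  congr 1
  refine List.map_congr_left fun t _ => ?_
  unfold mval
  ring

theorem G4_congr {d : ℕ} {L : List Mon} (h : ∀ t ∈ L, MLt d t) {x y : ℕ → ℝ}
    (hxy : ∀ i < d, x i = y i) : G4 L x = G4 L y := by
  unfold G4
  congr 1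
  refine List.map_congr_left fun t ht => ?_
  obtain ⟨⟨h1, h2⟩, h3, h4⟩ := h t ht
  unfold mval
  rw [hxy _ h1, hxy _ h2, hxy _ h3, hxy _ h4]

theorem G4_zero (L : List Mon) : G4 L (fun _ => 0) = 0 := by
  have := G4_scale L (fun _ => 0) 0
  simpa using this

theorem specNorm_ten {d D : ℕ} {L : List Mon} (hL : ∀ t ∈ L, MLt d t) (hd1 : 1 ≤ d) (hd : d ≤ D)
    (hF : (fam d L).length ≤ D) :
    (6 * ((L.length : ℝ) + 1) < specNorm D (ten D (fam d L))) ↔ ∃ v : ℕ → ℝ, 0 < G4 L v := by
  have hD : 1 ≤ D := hd1.trans hd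
  have hlt : ∀ M ∈ fam d L, SLt D M := fun M hM t ht =>
    ⟨lt_of_lt_of_le (fam_lt hL M hM t ht).1 hd, lt_of_lt_of_le (fam_lt hL M hM t ht).2 hd⟩
  set n : ℝ := (L.length : ℝ) + 1 with hn
  have hn0 : 0 < n := by positivity
  constructor
  · intro h
    by_contra hno
    push Not at hno
    obtain ⟨x, y, z, hx, hy, hz, hr⟩ := (isGreatest_specNorm hD (ten D (fam d L))).1
    rw [hr] at h
    have h1 := form_sq_le hlt hF x y z hx
    rw [E2_fam hL] at h1
    have h2 := EX_sq_le (fam d L) (ext y) (ext z)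
    have key : ∀ w : Fin D → ℝ, ∑ i, w i ^ 2 = 1 → E2 (fam d L) (ext w) (ext w) ≤ 36 * n ^ 2 := by
      intro w hw
      rw [E2_fam_self hL]
      have k1 := hno (ext w)
      have k2 : N2 d (ext w) ≤ 1 := by
        refine (N2_mono hd _).trans ?_
        rw [N2_ext, hw]
      have k3 := N2_nonneg d (ext w)
      have k4 : N2 d (ext w) ^ 2 ≤ 1 := pow_le_one₀ k3 k2
      have k5 : 36 * n ^ 2 * N2 d (ext w) ^ 2 ≤ 36 * n ^ 2 * 1 :=
        mul_le_mul_of_nonneg_left k4 (by positivity)
      rw [← hn]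
      linarith
    have ky := key y hy
    have kz := key z hz
    have h3 : EX (fam d L) (ext y) (ext z) ^ 2 ≤ (36 * n ^ 2) ^ 2 := by
      refine h2.trans ?_
      rw [sq]
      exact mul_le_mul ky kz (E2_nonneg _ _ _) (by positivity)
    have h4 : EX (fam d L) (ext y) (ext z) ≤ 36 * n ^ 2 := by
      exact le_of_sq_le_sq h3 (by positivity)
    have h5 : |form D (ten D (fam d L)) x y z| ^ 2 ≤ (6 * n) ^ 2 := by
      rw [sq_abs]
      nlinarith
    have h6 : |form D (ten D (fam d L)) x y z| ≤ 6 * n := le_of_sq_le_sq h5 (by positivity)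
    linarith
  · rintro ⟨v, hv⟩
    have hN : 0 < N2 d v := by
      rcases (N2_nonneg d v).lt_or_eq with h | h
      · exact h
      · exfalso
        have h0 : ∀ i < d, v i = 0 := by
          intro i hi
          have := (Finset.sum_eq_zero_iff_of_nonneg (fun i _ => sq_nonneg (v i))).1 h.symm i
            (Finset.mem_range.2 hi)
          exact pow_eq_zero_iff (by norm_num) |>.1 this
        rw [G4_congr hL (y := fun _ => 0) h0, G4_zero] at hv
        exact lt_irrefl _ hv
    set ρ : ℝ := Real.sqrt (N2 d v) with hρ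
    have hρ0 : 0 < ρ := Real.sqrt_pos.2 hN
    have hρ2 : ρ ^ 2 = N2 d v := Real.sq_sqrt hN.le
    let u : Fin D → ℝ := fun i => if (i : ℕ) < d then ρ⁻¹ * v i else 0
    have hu : ∀ i < d, ext u i = ρ⁻¹ * v i := by
      intro i hi
      have hiD : i < D := lt_of_lt_of_le hi hd
      simp [ext, u, hiD, hi]
    have hu' : ∀ i, d ≤ i → ext u i = 0 := by
      intro i hi
      unfold ext
      split_ifs with h
      · simp only [u]
        rw [if_neg (by simpa using hi)]
      · rfl
    have hNd : N2 d (ext u) = 1 := by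
      unfold N2
      have : ∀ i ∈ Finset.range d, ext u i ^ 2 = ρ⁻¹ ^ 2 * v i ^ 2 := by
        intro i hi
        rw [hu i (Finset.mem_range.1 hi)]
        ring
      rw [Finset.sum_congr rfl this, ← Finset.mul_sum]
      have h1 : ∑ i ∈ Finset.range d, v i ^ 2 = ρ ^ 2 := hρ2.symm
      rw [h1]
      field_simp
    have hND : ∑ i, u i ^ 2 = 1 := by
      rw [← N2_ext, ← hNd]
      unfold N2
      symm
      refine Finset.sum_subset (fun x hx => ?_) fun x _ hx => ?_
      · rw [Finset.mem_range] at hx ⊢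
        omega
      · rw [Finset.mem_range, not_lt] at hx
        rw [hu' x hx]
        ring
    have hG : 0 < G4 L (ext u) := by
      rw [G4_congr hL (y := fun i => ρ⁻¹ * v i) hu, G4_scale]
      positivity
    have hH := E2_fam_self hL (ext u)
    rw [hNd, ← hn] at hH
    set H : ℝ := E2 (fam d L) (ext u) (ext u) with hHdef
    have hHgt : (6 * n) ^ 2 < H := by
      rw [hH]
      nlinarith
    have hHpos : 0 < H := lt_of_le_of_lt (by positivity) hHgt
    have hsq : Real.sqrt H ^ 2 = H := Real.sq_sqrt hHpos.le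
    have hsq0 : 0 < Real.sqrt H := Real.sqrt_pos.2 hHpos
    let x : Fin D → ℝ := fun a => (Real.sqrt H)⁻¹ * bil ((fam d L).getD a []) (ext u) (ext u)
    have hext : ∀ a ∈ Finset.range D, ext x a =
        (Real.sqrt H)⁻¹ * bil ((fam d L).getD a []) (ext u) (ext u) := by
      intro a ha
      have := Finset.mem_range.1 ha
      simp [ext, x, this]
    have hsum : ∑ a ∈ Finset.range D, bil ((fam d L).getD a []) (ext u) (ext u) ^ 2 = H := by
      rw [sum_getD hF (fun M => bil M (ext u) (ext u) ^ 2) (by simp)]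
      rfl
    have hx : ∑ a, x a ^ 2 = 1 := by
      rw [← N2_ext]
      unfold N2
      have : ∀ a ∈ Finset.range D, ext x a ^ 2 =
          (Real.sqrt H)⁻¹ ^ 2 * bil ((fam d L).getD a []) (ext u) (ext u) ^ 2 := by
        intro a ha
        rw [hext a ha]
        ring
      rw [Finset.sum_congr rfl this, ← Finset.mul_sum, hsum]
      nth_rw 2 [← hsq]
      field_simp
    have hform : form D (ten D (fam d L)) x u u = Real.sqrt H := by
      rw [form_ten hlt]
      have : ∀ a ∈ Finset.range D, ext x a * bil ((fam d L).getD a []) (ext u) (ext u) =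
          (Real.sqrt H)⁻¹ * bil ((fam d L).getD a []) (ext u) (ext u) ^ 2 := by
        intro a ha
        rw [hext a ha]
        ring
      rw [Finset.sum_congr rfl this, ← Finset.mul_sum, hsum]
      nth_rw 2 [← hsq]
      field_simp
    have hle : Real.sqrt H ≤ specNorm D (ten D (fam d L)) := by
      refine (isGreatest_specNorm hD (ten D (fam d L))).2 ⟨x, u, u, hx, hND, hND, ?_⟩
      rw [hform, abs_of_pos hsq0]
    refine lt_of_lt_of_le ?_ hle
    exact Real.lt_sqrt_of_sq_lt hHgt

end Pool.Agent.D0H56.SN
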