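import Pool.Agent.ER.GapSys
import Pool.Agent.D0H56.SN.Tens

/-!
# From systems of constraints to quartic forms

A system `S` of constraints is turned into a quartic form `G` (the sum of the list `mons S` of
signed monomials) which has a positive value if and only if the system is satisfiable:
`G = y⁴ - ∑ q²`, where the `q` are the homogenized constraints of the bounded system, of a chain
of squarings that defines `y = 8 ^ (-2 ^ K)`, and of the equations `64 w² + s² = x₀²`.
-/

set_option autoImplicit false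

namespace Pool.Agent.D0H56.SN

open Pool.Agent.NPC Pool.Agent.NPC.ER

/-- Sums of signed quadratic monomials. -/
abbrev Quad : Type := List (Bool × ℕ × ℕ)

/-- The value of a sum of signed quadratic monomials. -/
def qval (Q : Quad) (x : ℕ → ℝ) : ℝ := (Q.map fun t => sgn t.1 * (x t.2.1 * x t.2.2)).sum

/-- The monomials of `-Q²`. -/
def negsq (Q : Quad) : List Mon := Q.flatMap fun a => Q.map fun b => (!(a.1 ^^ b.1), a.2, b.2)

theorem sgn_not_xor (a b : Bool) : sgn (!(a ^^ b)) = -(sgn a * sgn b) := by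
  cases a <;> cases b <;> simp [sgn]

theorem G4_append (L L' : List Mon) (x : ℕ → ℝ) : G4 (L ++ L') x = G4 L x + G4 L' x := by
  simp [G4]

theorem G4_flatMap {α : Type} (l : List α) (f : α → List Mon) (x : ℕ → ℝ) :
    G4 (l.flatMap f) x = (l.map fun a => G4 (f a) x).sum := by
  induction l with
  | nil => simp [G4]
  | cons a l ih => simp [G4_append, ih]

theorem G4_negsq (Q : Quad) (x : ℕ → ℝ) : G4 (negsq Q) x = - qval Q x ^ 2 := by
  unfold negsq
  rw [G4_flatMap]
  have h : ∀ a : Bool × ℕ × ℕ, G4 (Q.map fun b => (!(a.1 ^^ b.1), a.2, b.2)) x =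
      -(sgn a.1 * (x a.2.1 * x a.2.2)) * qval Q x := by
    intro a
    unfold G4 qval
    rw [List.map_map, ← List.sum_map_mul_left]
    congr 1
    refine List.map_congr_left fun b _ => ?_
    simp only [Function.comp, mval, sgn_not_xor]
    ring
  simp only [h]
  rw [List.sum_map_mul_right]
  have h2 : (Q.map fun a => -(sgn a.1 * (x a.2.1 * x a.2.2))).sum = - qval Q x := by
    unfold qval
    clear h
    induction Q with
    | nil => simp
    | cons a Q ih =>
      simp only [List.map_cons, List.sum_cons, ih]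
      ring
  rw [h2]
  ring

/-- The name of the variable `i`. -/
def wi (V : List ℕ) (i : ℕ) : ℕ := 2 * V.idxOf i + 1

/-- The name of the slack variable of the variable `i`. -/
def si (V : List ℕ) (i : ℕ) : ℕ := 2 * V.idxOf i + 2

/-- The homogenized constraints. -/
def conQ (V : List ℕ) : ER.Con → Quad
  | ER.Con.one i => List.replicate 8 (false, wi V i, 0) ++ [(true, 0, 0)]
  | ER.Con.add i j k => [(false, wi V i, 0), (false, wi V j, 0), (true, wi V k, 0)]
  | ER.Con.mul i j k => [(false, wi V i, wi V j), (true, wi V k, 0)]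

/-- The equations `64 w² + s² = x₀²`. -/
def boxQ (V : List ℕ) (i : ℕ) : Quad :=
  List.replicate 64 (false, wi V i, wi V i) ++ [(false, si V i, si V i), (true, 0, 0)]

/-- The chain of squarings. -/
def chain (K : ℕ) : List ER.Con := (List.range K).map fun j => ER.Con.mul (ER.ev j) (ER.ev j) (ER.ev (j + 1))

/-- The length of the chain. -/
def KK (S : List ER.Con) : ℕ := gapK (bsys S).length

/-- The bounded system with the chain. -/
def sysC (S : List ER.Con) : List ER.Con := bsys S ++ chain (KK S)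

/-- The list of the variables. -/
def vC (S : List ER.Con) : List ℕ := svars (sysC S)

/-- All quadratic forms. -/
def quads (S : List ER.Con) : List Quad :=
  (sysC S).map (conQ (vC S)) ++ (vC S).map (boxQ (vC S))

/-- The name of the last variable of the chain. -/
def yv (S : List ER.Con) : ℕ := wi (vC S) (ER.ev (KK S))

/-- The quartic form. -/
def mons (S : List ER.Con) : List Mon :=
  (false, (yv S, yv S), (yv S, yv S)) :: (quads S).flatMap negsq

/-- The number of variables. -/
def dim (S : List ER.Con) : ℕ := 2 * (vC S).length + 1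

theorem qval_append (Q Q' : Quad) (x : ℕ → ℝ) : qval (Q ++ Q') x = qval Q x + qval Q' x := by
  simp [qval]

theorem qval_replicate (n : ℕ) (i j : ℕ) (x : ℕ → ℝ) :
    qval (List.replicate n (false, i, j)) x = n * (x i * x j) := by
  simp [qval, sgn]

theorem qval_conQ (V : List ℕ) (c : ER.Con) (x : ℕ → ℝ) (h0 : x 0 = 1) :
    qval (conQ V c) x = c.err fun i => x (wi V i) := by
  cases c with
  | one i =>
    simp only [conQ, ER.Con.err, qval_append, qval_replicate, h0]
    simp [qval, sgn, h0]
    ring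
  | add i j k =>
    simp only [conQ, ER.Con.err]
    simp [qval, sgn, h0]
    ring
  | mul i j k =>
    simp only [conQ, ER.Con.err]
    simp [qval, sgn, h0]
    ring

theorem qval_boxQ (V : List ℕ) (i : ℕ) (x : ℕ → ℝ) :
    qval (boxQ V i) x = 64 * x (wi V i) ^ 2 + x (si V i) ^ 2 - x 0 ^ 2 := by
  unfold boxQ
  rw [qval_append, qval_replicate]
  simp [qval, sgn]
  ring

theorem G4_mons (S : List ER.Con) (x : ℕ → ℝ) :
    G4 (mons S) x = x (yv S) ^ 4 - ((quads S).map fun Q => qval Q x ^ 2).sum := by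
  unfold mons
  have h : G4 ((false, (yv S, yv S), (yv S, yv S)) :: (quads S).flatMap negsq) x =
      x (yv S) ^ 4 + G4 ((quads S).flatMap negsq) x := by
    simp [G4, mval, sgn]
    ring
  rw [h, G4_flatMap]
  have h2 : ∀ l : List Quad, (l.map fun Q => G4 (negsq Q) x).sum =
      - (l.map fun Q => qval Q x ^ 2).sum := by
    intro l
    induction l with
    | nil => simp
    | cons Q l ih =>
      rw [List.map_cons, List.sum_cons, ih, List.map_cons, List.sum_cons, G4_negsq]
      ring
  rw [h2]
  ring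

theorem KK_pos (S : List ER.Con) : 0 < KK S := by
  unfold KK gapK
  omega

theorem mem_chain {K j : ℕ} (h : j < K) : ER.Con.mul (ER.ev j) (ER.ev j) (ER.ev (j + 1)) ∈ chain K := by
  unfold chain
  rw [List.mem_map]
  exact ⟨j, List.mem_range.2 h, rfl⟩

theorem evK_mem (S : List ER.Con) : ER.ev (KK S) ∈ vC S := by
  have h1 : ER.Con.mul (ER.ev (KK S - 1)) (ER.ev (KK S - 1)) (ER.ev (KK S - 1 + 1)) ∈ sysC S := by
    unfold sysC
    refine List.mem_append_right _ (mem_chain ?_)
    have := KK_pos S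
    omega
  have h2 : KK S - 1 + 1 = KK S := by
    have := KK_pos S
    omega
  rw [h2] at h1
  exact mem_svars h1 (by simp [ER.Con.vars])

theorem sq_le_of_pos {S : List ER.Con} {x : ℕ → ℝ} (h : 0 < G4 (mons S) x) {Q : Quad}
    (hQ : Q ∈ quads S) : qval Q x ^ 2 < (x (yv S) ^ 2) ^ 2 := by
  rw [G4_mons] at h
  have h1 : qval Q x ^ 2 ≤ ((quads S).map fun Q => qval Q x ^ 2).sum := by
    refine List.single_le_sum (fun r hr => ?_) _ (List.mem_map.2 ⟨Q, hQ, rfl⟩)
    rw [List.mem_map] at hr
    obtain ⟨Q', _, rfl⟩ := hr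
    exact sq_nonneg _
  have h2 : (x (yv S) ^ 2) ^ 2 = x (yv S) ^ 4 := by ring
  rw [h2]
  linarith

theorem abs_le_of_pos {S : List ER.Con} {x : ℕ → ℝ} (h : 0 < G4 (mons S) x) {Q : Quad}
    (hQ : Q ∈ quads S) : |qval Q x| ≤ x (yv S) ^ 2 := by
  have h1 := sq_le_of_pos h hQ
  exact (abs_lt_of_sq_lt_sq h1 (sq_nonneg _)).le

theorem x0_ne_zero {S : List ER.Con} {x : ℕ → ℝ} (h : 0 < G4 (mons S) x) : x 0 ≠ 0 := by
  intro h0
  have hQ : boxQ (vC S) (ER.ev (KK S)) ∈ quads S := by
    unfold quads
    exact List.mem_append_right _ (List.mem_map.2 ⟨_, evK_mem S, rfl⟩)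
  have h1 := sq_le_of_pos h hQ
  rw [qval_boxQ, h0] at h1
  change (64 * x (yv S) ^ 2 + x (si (vC S) (ER.ev (KK S))) ^ 2 - 0 ^ 2) ^ 2 < (x (yv S) ^ 2) ^ 2 at h1
  have h2 := sq_nonneg (x (yv S))
  have h3 := sq_nonneg (x (si (vC S) (ER.ev (KK S))))
  nlinarith

/-- No. -/
theorem sat_of_pos1 {S : List ER.Con} {x : ℕ → ℝ} (h : 0 < G4 (mons S) x) (h0 : x 0 = 1) :
    Sat S := by
  set V := vC S with hV
  set w : ℕ → ℝ := fun i => x (wi V i) with hw
  set K := KK S with hK
  set η : ℝ := |w (ER.ev K)| with hη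
  have hη0 : 0 ≤ η := abs_nonneg _
  have hy : x (yv S) ^ 2 = η ^ 2 := by
    rw [hη, sq_abs]
    rfl
  have herr : ∀ c ∈ sysC S, |c.err w| ≤ η ^ 2 := by
    intro c hc
    rw [← hy, ← qval_conQ V c x h0]
    refine abs_le_of_pos h ?_
    unfold quads
    exact List.mem_append_left _ (List.mem_map.2 ⟨c, hc, rfl⟩)
  have hbox : ∀ i ∈ V, 64 * w i ^ 2 ≤ 1 + η ^ 2 := by
    intro i hi
    have h1 : |qval (boxQ V i) x| ≤ x (yv S) ^ 2 := by
      refine abs_le_of_pos h ?_
      unfold quads
      exact List.mem_append_right _ (List.mem_map.2 ⟨i, hi, rfl⟩)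
    rw [qval_boxQ, h0, hy] at h1
    have h2 := (abs_le.1 h1).2
    have h3 := sq_nonneg (x (si V i))
    change 64 * x (wi V i) ^ 2 ≤ _
    linarith
  have hη1 : 63 * η ^ 2 ≤ 1 := by
    have h1 := hbox (ER.ev K) (evK_mem S)
    have h2 : w (ER.ev K) ^ 2 = η ^ 2 := by rw [hη, sq_abs]
    rw [h2] at h1
    linarith
  have hη7 : η ≤ 1 / 7 := by
    by_contra hcon
    push Not at hcon
    nlinarith
  have hmain : ∀ j ≤ K, |w (ER.ev j)| ≤ (1 / 8) ^ 2 ^ j + 2 * η ^ 2 := by
    intro j
    induction j with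
    | zero =>
      intro _
      have h1 := herr (ER.Con.one (ER.ev 0)) (by
        unfold sysC bsys
        simp)
      simp only [ER.Con.err] at h1
      rw [abs_le] at h1
      rw [abs_le]
      norm_num
      constructor <;> nlinarith [sq_nonneg η]
    | succ j ih =>
      intro hj
      have h1 := ih (by omega)
      have h2 := herr (ER.Con.mul (ER.ev j) (ER.ev j) (ER.ev (j + 1))) (by
        unfold sysC
        exact List.mem_append_right _ (mem_chain (by omega)))
      simp only [ER.Con.err] at h2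
      rw [abs_le] at h2
      have h3 : w (ER.ev j) * w (ER.ev j) = |w (ER.ev j)| ^ 2 := by rw [sq_abs]; ring
      set a : ℝ := (1 / 8) ^ 2 ^ j with ha
      have ha0 : 0 ≤ a := by positivity
      have ha8 : a ≤ 1 / 8 := by
        rw [ha]
        have : (1 / 8 : ℝ) ^ 2 ^ j ≤ (1 / 8) ^ 1 :=
          pow_le_pow_of_le_one (by norm_num) (by norm_num) Nat.one_le_two_pow
        simpa using this
      have h4 : |w (ER.ev j)| ^ 2 ≤ (a + 2 * η ^ 2) ^ 2 :=
        pow_le_pow_left₀ (abs_nonneg _) h1 2
      have h5 : (1 / 8 : ℝ) ^ 2 ^ (j + 1) = a ^ 2 := by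
        rw [ha, ← pow_mul, pow_succ]
      rw [h5]
      have h6 : (a + 2 * η ^ 2) ^ 2 + η ^ 2 ≤ a ^ 2 + 2 * η ^ 2 := by
        have e1 : a * η ^ 2 ≤ 1 / 8 * η ^ 2 := mul_le_mul_of_nonneg_right ha8 (sq_nonneg _)
        have e2 : η ^ 2 * η ^ 2 ≤ 1 / 63 * η ^ 2 :=
          mul_le_mul_of_nonneg_right (by linarith) (sq_nonneg _)
        nlinarith [sq_nonneg η]
      rw [h3] at h2
      have h7 : 0 ≤ |w (ER.ev j)| ^ 2 := sq_nonneg _
      rw [abs_le]
      constructor <;> nlinarith [sq_nonneg η, sq_nonneg a]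
  set δ : ℝ := (1 / 8) ^ 2 ^ K with hδ
  have hδ0 : 0 < δ := by positivity
  have h1 : η ≤ δ + 2 * η ^ 2 := hmain K le_rfl
  have h2 : η ^ 2 ≤ δ := by nlinarith
  have h3 : ∀ c ∈ bsys S, |c.err w| * 2 ^ 2 ^ gapK (bsys S).length ≤ 1 := by
    intro c hc
    have h4 : |c.err w| ≤ δ := (herr c (by
      unfold sysC
      exact List.mem_append_left _ hc)).trans h2
    have h5 : δ * 2 ^ 2 ^ K ≤ 1 := by
      rw [hδ, ← mul_pow]
      exact pow_le_one₀ (by norm_num) (by norm_num)
    refine le_trans (mul_le_mul_of_nonneg_right h4 (by positivity)) ?_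
    exact h5
  have h4 : ∀ i ∈ svars (bsys S), |w i| ≤ 1 := by
    intro i hi
    have hiV : i ∈ V := by
      rw [hV]
      unfold vC sysC svars
      rw [List.flatMap_append]
      exact List.mem_append_left _ hi
    have h5 := hbox i hiV
    have h6 : w i ^ 2 ≤ 1 := by nlinarith
    exact (sq_le_one_iff_abs_le_one _).1 h6
  obtain ⟨w', hw'⟩ := holds_of_approx h4 h3
  exact sat_of_bsys hw'

theorem sat_of_pos {S : List ER.Con} {x : ℕ → ℝ} (h : 0 < G4 (mons S) x) : Sat S := by
  have h0 := x0_ne_zero h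
  refine sat_of_pos1 (x := fun i => (x 0)⁻¹ * x i) ?_ (inv_mul_cancel₀ h0)
  rw [G4_scale]
  have : 0 < (x 0)⁻¹ ^ 4 := by positivity
  positivity

/-! ### The other direction -/

theorem err_congr {w w' : ℕ → ℝ} {c : ER.Con} (h : ∀ i ∈ c.vars, w i = w' i) :
    c.err w = c.err w' := by
  cases c <;> simp [ER.Con.vars] at h <;> simp [ER.Con.err, h]

theorem pos_of_sat {S : List ER.Con} (h : Sat S) : ∃ x : ℕ → ℝ, 0 < G4 (mons S) x := by
  obtain ⟨w, hw1, hw2⟩ := bsys_of_sat h
  set V := vC S with hV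
  let w' : ℕ → ℝ := fun i => if i % 4 = 1 then (1 / 8) ^ 2 ^ (i / 4) else w i
  have hev : ∀ j, w' (ER.ev j) = (1 / 8) ^ 2 ^ j := by
    intro j
    have h1 : ER.ev j % 4 = 1 := by unfold ER.ev; omega
    have h2 : ER.ev j / 4 = j := by unfold ER.ev; omega
    simp only [w', h1, if_true, h2]
  have h8 : ∀ j : ℕ, (1 / 8 : ℝ) ^ 2 ^ j ≤ 1 / 8 := by
    intro j
    have : (1 / 8 : ℝ) ^ 2 ^ j ≤ (1 / 8) ^ 1 :=
      pow_le_pow_of_le_one (by norm_num) (by norm_num) Nat.one_le_two_pow
    simpa using this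
  have hle : ∀ i, |w' i| ≤ 1 / 8 := by
    intro i
    simp only [w']
    split_ifs
    · rw [abs_of_nonneg (by positivity)]
      exact h8 _
    · exact hw1 i
  have hval := ev_value hw2
  have heq : ∀ c ∈ bsys S, ∀ i ∈ c.vars, w' i = w i := by
    have e1 : ∀ j ≤ bK S, w' (ER.ev j) = w (ER.ev j) := fun j hj => by rw [hev, hval j hj]
    have e2 : ∀ i, w' (2 * i) = w (2 * i) := by
      intro i
      have : ¬ (2 * i) % 4 = 1 := by omega
      simp only [w', this, if_false]
    have e3 : ∀ t, w' (4 * t + 3) = w (4 * t + 3) := by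
      intro t
      have : ¬ (4 * t + 3) % 4 = 1 := by omega
      simp only [w', this, if_false]
    intro c hc i hi
    unfold bsys at hc
    simp only [List.mem_cons, List.mem_append, List.mem_map, List.mem_range, List.mem_flatMap] at hc
    rcases hc with rfl | ⟨j, hj, rfl⟩ | ⟨⟨c', t⟩, _, hc⟩
    · simp only [ER.Con.vars, List.mem_singleton] at hi
      subst hi
      exact e1 0 (Nat.zero_le _)
    · simp only [ER.Con.vars, List.mem_cons, List.not_mem_nil, or_false] at hi
      rcases hi with rfl | rfl | rfl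
      · exact e1 _ (by omega)
      · exact e1 _ (by omega)
      · exact e1 _ (by omega)
    · cases c' with
      | one i' =>
        simp only [bcon, List.mem_cons, List.not_mem_nil, or_false] at hc
        rcases hc with rfl | rfl <;>
          simp only [ER.Con.vars, List.mem_cons, List.not_mem_nil, or_false] at hi
        · rcases hi with rfl | rfl | rfl <;> exact e3 _
        · rcases hi with rfl | rfl | rfl
          · exact e2 _
          · exact e3 _
          · exact e1 _ le_rfl
      | add i' j' k' =>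
        simp only [bcon, List.mem_cons, List.not_mem_nil, or_false] at hc
        subst hc
        simp only [ER.Con.vars, List.mem_cons, List.not_mem_nil, or_false] at hi
        rcases hi with rfl | rfl | rfl <;> exact e2 _
      | mul i' j' k' =>
        simp only [bcon, List.mem_cons, List.not_mem_nil, or_false] at hc
        rcases hc with rfl | rfl <;>
          simp only [ER.Con.vars, List.mem_cons, List.not_mem_nil, or_false] at hi
        · rcases hi with rfl | rfl | rfl
          · exact e2 _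
          · exact e2 _
          · exact e3 _
        · rcases hi with rfl | rfl | rfl
          · exact e1 _ le_rfl
          · exact e2 _
          · exact e3 _
  have herr : ∀ c ∈ sysC S, c.err w' = 0 := by
    intro c hc
    unfold sysC at hc
    rw [List.mem_append] at hc
    rcases hc with hc | hc
    · rw [err_congr (heq c hc), ER.Con.err_eq_zero]
      exact hw2 c hc
    · unfold chain at hc
      rw [List.mem_map] at hc
      obtain ⟨j, _, rfl⟩ := hc
      simp only [ER.Con.err, hev]
      rw [← pow_add, pow_succ, mul_two]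
      ring
  let x : ℕ → ℝ := fun n => if n = 0 then 1 else if n % 2 = 1 then w' (V.getD (n / 2) 0)
    else Real.sqrt (1 - 64 * w' (V.getD (n / 2 - 1) 0) ^ 2)
  have hget : ∀ i ∈ V, V.getD (V.idxOf i) 0 = i := by
    intro i hi
    have h1 := List.idxOf_lt_length_of_mem hi
    rw [List.getD_eq_getElem _ _ h1]
    exact List.getElem_idxOf h1
  have hx0 : x 0 = 1 := by simp [x]
  have hxw : ∀ i ∈ V, x (wi V i) = w' i := by
    intro i hi
    have h1 : wi V i ≠ 0 := by unfold wi; omega
    have h2 : wi V i % 2 = 1 := by unfold wi; omega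
    have h3 : wi V i / 2 = V.idxOf i := by unfold wi; omega
    simp only [x, h1, if_false, h2, if_true, h3, hget i hi]
  have hxs : ∀ i ∈ V, x (si V i) = Real.sqrt (1 - 64 * w' i ^ 2) := by
    intro i hi
    have h1 : si V i ≠ 0 := by unfold si; omega
    have h2 : ¬ si V i % 2 = 1 := by unfold si; omega
    have h3 : si V i / 2 - 1 = V.idxOf i := by unfold si; omega
    simp only [x, h1, if_false, h2, h3, hget i hi]
  have hq : ∀ Q ∈ quads S, qval Q x ^ 2 = 0 := by
    intro Q hQ
    unfold quads at hQ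
    rw [List.mem_append, List.mem_map, List.mem_map] at hQ
    rcases hQ with ⟨c, hc, rfl⟩ | ⟨i, hi, rfl⟩
    · rw [qval_conQ _ _ _ hx0, err_congr (w' := w') (fun i hi => hxw i (mem_svars hc hi)),
        herr c hc]
      ring
    · have hi' : i ∈ V := hi
      rw [qval_boxQ, hxw i hi', hxs i hi', hx0, Real.sq_sqrt]
      · ring
      · have h1 := hle i
        have h2 : w' i ^ 2 ≤ (1 / 8) ^ 2 := by
          rw [← sq_abs]
          exact pow_le_pow_left₀ (abs_nonneg _) h1 2
        linarith
  refine ⟨x, ?_⟩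
  rw [G4_mons]
  have h1 : ((quads S).map fun Q => qval Q x ^ 2).sum = 0 := by
    refine List.sum_eq_zero fun r hr => ?_
    rw [List.mem_map] at hr
    obtain ⟨Q, hQ, rfl⟩ := hr
    exact hq Q hQ
  have h2 : x (yv S) = (1 / 8) ^ 2 ^ KK S := by
    unfold yv
    rw [hxw _ (evK_mem S), hev]
  rw [h1, h2]
  have : (0 : ℝ) < ((1 / 8) ^ 2 ^ KK S) ^ 4 := by positivity
  linarith

theorem sat_iff (S : List ER.Con) : Sat S ↔ ∃ x : ℕ → ℝ, 0 < G4 (mons S) x :=
  ⟨pos_of_sat, fun ⟨_, h⟩ => sat_of_pos h⟩

/-! ### The indices -/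

theorem wi_lt {S : List ER.Con} {i : ℕ} (hi : i ∈ vC S) : wi (vC S) i < dim S := by
  have := List.idxOf_lt_length_of_mem hi
  unfold wi dim
  omega

theorem si_lt {S : List ER.Con} {i : ℕ} (hi : i ∈ vC S) : si (vC S) i < dim S := by
  have := List.idxOf_lt_length_of_mem hi
  unfold si dim
  omega

theorem dim_pos (S : List ER.Con) : 0 < dim S := by
  unfold dim
  omega

theorem quads_lt {S : List ER.Con} {Q : Quad} (hQ : Q ∈ quads S) :
    ∀ t ∈ Q, t.2.1 < dim S ∧ t.2.2 < dim S := by
  have hd := dim_pos S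
  unfold quads at hQ
  rw [List.mem_append, List.mem_map, List.mem_map] at hQ
  rcases hQ with ⟨c, hc, rfl⟩ | ⟨i, hi, rfl⟩
  · have hv : ∀ i ∈ c.vars, wi (vC S) i < dim S := fun i hi => wi_lt (mem_svars hc hi)
    intro t ht
    cases c with
    | one i =>
      have h1 := hv i (by simp [ER.Con.vars])
      simp only [conQ, List.mem_append, List.mem_replicate, List.mem_singleton] at ht
      rcases ht with ⟨_, rfl⟩ | rfl
      · exact ⟨h1, hd⟩
      · exact ⟨hd, hd⟩
    | add i j k =>
      have h1 := hv i (by simp [ER.Con.vars])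
      have h2 := hv j (by simp [ER.Con.vars])
      have h3 := hv k (by simp [ER.Con.vars])
      simp only [conQ, List.mem_cons, List.not_mem_nil, or_false] at ht
      rcases ht with rfl | rfl | rfl
      · exact ⟨h1, hd⟩
      · exact ⟨h2, hd⟩
      · exact ⟨h3, hd⟩
    | mul i j k =>
      have h1 := hv i (by simp [ER.Con.vars])
      have h2 := hv j (by simp [ER.Con.vars])
      have h3 := hv k (by simp [ER.Con.vars])
      simp only [conQ, List.mem_cons, List.not_mem_nil, or_false] at ht
      rcases ht with rfl | rfl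
      · exact ⟨h1, h2⟩
      · exact ⟨h3, hd⟩
  · intro t ht
    simp only [boxQ, List.mem_append, List.mem_replicate, List.mem_cons, List.not_mem_nil,
      or_false] at ht
    rcases ht with ⟨_, rfl⟩ | rfl | rfl
    · exact ⟨wi_lt hi, wi_lt hi⟩
    · exact ⟨si_lt hi, si_lt hi⟩
    · exact ⟨hd, hd⟩

theorem mons_lt (S : List ER.Con) : ∀ t ∈ mons S, MLt (dim S) t := by
  intro t ht
  unfold mons at ht
  rw [List.mem_cons, List.mem_flatMap] at ht
  rcases ht with rfl | ⟨Q, hQ, ht⟩
  · have h := wi_lt (evK_mem S)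
    exact ⟨⟨h, h⟩, h, h⟩
  · unfold negsq at ht
    rw [List.mem_flatMap] at ht
    obtain ⟨a, ha, ht⟩ := ht
    rw [List.mem_map] at ht
    obtain ⟨b, hb, rfl⟩ := ht
    exact ⟨quads_lt hQ a ha, quads_lt hQ b hb⟩

end Pool.Agent.D0H56.SN
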